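import Pool.Agent.Q61.UM.DETa
import Pool.Agent.Q97.UM.Stm11

set_option autoImplicit false

/-! Project UM5 (helper97), job DETI: the trace inequality for isolated zeros in a window (adapted from Q61/UM/DET.lean). -/

namespace Pool.Agent.Q148.UM

open Filter Topology MeasureTheory Complex
open scoped ComplexConjugate
open Pool.Agent.Q97.UM
open Pool.Agent.Q61.UM (om_conj one_le_ex one_sub_exp quad_le far_bd Psi_out Psi_nonneg kap_bd pair_int)

noncomputable section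

/-- continuity of the kernel at `0` -/
theorem kap_near {g : ℝ → ℝ} (hg : H295SI.Win g) {η : ℝ} (hη : 0 < η) :
    ∃ d : ℝ, 0 < d ∧ d ≤ 1 / 8 ∧ ∀ v : ℂ, ‖v‖ ≤ 6 * d → ‖H295SI.kapG g v - 1‖ ≤ η := by
  have hgc := hg.cont
  have hc : Continuous (fun v : ℂ => H295SI.kapG g v) := by
    unfold H295SI.kapG
    refine intervalIntegral.continuous_parametric_intervalIntegral_of_continuous' ?_ _ _
    fun_prop
  have h0 : H295SI.kapG g 0 = 1 := H143TG.kapG_zero hg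
  obtain ⟨ε, hε, h⟩ := Metric.continuousAt_iff.1 (hc.continuousAt (x := 0)) η hη
  refine ⟨min (ε / 12) (1 / 8), by positivity, min_le_right _ _, fun v hv => ?_⟩
  have h1 : 6 * min (ε / 12) (1 / 8) ≤ ε / 2 := by
    have := min_le_left (ε / 12) (1 / 8 : ℝ)
    linarith
  have h2 := @h v (by rw [dist_zero_right]; linarith)
  rw [h0, dist_eq_norm] at h2
  exact h2.le

section

variable {δ H C : ℝ} {K : ℕ} {w : ℝ → ℝ}

theorem gau_bd {L : ℝ} (hL0 : 0 < L) {ξ : ℂ} {y₀ : ℝ} (h2 : |ξ.im| ≤ y₀) :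
    ‖cexp (-(ξ / L) ^ 2 / 4)‖ ≤ Real.exp (y₀ ^ 2 / L ^ 2 / 4) := by
  rw [Complex.norm_exp]
  apply Real.exp_le_exp.2
  have h3 : (-(ξ / L) ^ 2 / 4).re = (ξ.im ^ 2 - ξ.re ^ 2) / L ^ 2 / 4 := by
    have h4 : -(ξ / L) ^ 2 / 4 = ((1 / (4 * L ^ 2) : ℝ) : ℂ) * (-(ξ ^ 2)) := by
      push_cast
      have : (L : ℂ) ≠ 0 := by exact_mod_cast hL0.ne'
      field_simp
    have h4' : (ξ ^ 2).re = ξ.re * ξ.re - ξ.im * ξ.im := by rw [sq, Complex.mul_re]
    rw [h4, Complex.re_ofReal_mul, Complex.neg_re, h4']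
    field_simp
    ring
  rw [h3]
  have h5 : ξ.im ^ 2 ≤ y₀ ^ 2 := by
    rw [← sq_abs]
    exact pow_le_pow_left₀ (abs_nonneg _) h2 2
  have h6 := sq_nonneg ξ.re
  gcongr
  linarith

theorem om_bd (hδ : 0 ≤ δ) (hδ8 : δ ≤ 1 / 8) (hC : 1 ≤ C) (hw : OmW δ H C K w) {L : ℝ} (hL0 : 0 < L) (hL1 : 1 ≤ L)
    {ξ : ℂ} (h1 : |ξ.re| ≤ H) (h2 : |ξ.im| ≤ 1 / 8) : ‖om w ξ * cexp (-(ξ / L) ^ 2 / 4)‖ ≤ 3 * C := by
  have hy0 := abs_nonneg ξ.im
  have n1 := hw.near ξ h1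
  have hq1 : 1 ≤ (1 + (H - |ξ.re|)) ^ K := one_le_pow₀ (by linarith)
  have e1 : Real.exp (δ * |ξ.im|) ≤ 1 + 1 / 32 := by
    have h3 : δ * |ξ.im| ≤ 1 / 64 := by nlinarith
    refine (Real.exp_le_exp.2 h3).trans ?_
    have h4 := Real.exp_bound_div_one_sub_of_interval (x := 1 / 64) (by norm_num) (by norm_num)
    refine h4.trans ?_
    norm_num
  have n2 : ‖om w ξ - 1‖ ≤ C * (1 + 1 / 32) := by
    refine n1.trans ((div_le_self (by positivity) hq1).trans ?_)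
    exact mul_le_mul_of_nonneg_left e1 (by linarith)
  have n3 : ‖om w ξ‖ ≤ C * (2 + 1 / 32) := by
    have : om w ξ = (om w ξ - 1) + 1 := by ring
    rw [this]
    refine (norm_add_le _ _).trans ?_
    rw [norm_one]
    linarith
  have n4 : ‖cexp (-(ξ / L) ^ 2 / 4)‖ ≤ 1 + 1 / 32 := by
    refine (gau_bd hL0 h2).trans ?_
    have h3 : (1 / 8 : ℝ) ^ 2 / L ^ 2 / 4 ≤ 1 / 64 := by
      have : (1 / 8 : ℝ) ^ 2 / L ^ 2 ≤ (1 / 8 : ℝ) ^ 2 := div_le_self (by norm_num) (one_le_pow₀ hL1)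
      linarith
    refine (Real.exp_le_exp.2 h3).trans ?_
    have h4 := Real.exp_bound_div_one_sub_of_interval (x := 1 / 64) (by norm_num) (by norm_num)
    refine h4.trans ?_
    norm_num
  rw [norm_mul]
  calc ‖om w ξ‖ * ‖cexp (-(ξ / L) ^ 2 / 4)‖ ≤ (C * (2 + 1 / 32)) * (1 + 1 / 32) :=
        mul_le_mul n3 n4 (norm_nonneg _) (by positivity)
    _ ≤ 3 * C := by linarith

/-- points in the window -/
theorem near_bd1 (hδ : 0 < δ) (hH : 1 ≤ H) (hC : 1 ≤ C) (hw : OmW δ H C K w) {L : ℝ} (hL0 : 0 < L)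
    (hL1 : 4 * H ^ 2 ≤ L ^ 2) (hL2 : 4 * H ^ 3 ≤ L ^ 2) (hL3 : 8 * H / δ ^ 2 ≤ L ^ 2) {ξ : ℂ} (h1 : |ξ.re| ≤ H) (h2 : |ξ.im| ≤ L / 2) :
    8 * ‖1 - om w ξ * cexp (-(ξ / L) ^ 2 / 4)‖ * (1 + ‖om w ξ * cexp (-(ξ / L) ^ 2 / 4)‖) +
      288 * C ^ 2 * ‖1 - om w ξ * cexp (-(ξ / L) ^ 2 / 4)‖ ≤ 400 * C ^ 4 * Psi δ H K ξ.re |ξ.im| := by
  set y := |ξ.im| with hy
  have hy0 : 0 ≤ y := abs_nonneg _
  have hx0 := abs_nonneg ξ.re
  set e := Real.exp (δ * y) with he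
  have he1 : 1 ≤ e := one_le_ex hδ.le hy0
  have hq1 : 1 ≤ (1 + (H - |ξ.re|)) ^ K := one_le_pow₀ (by linarith)
  set q := (1 + (H - |ξ.re|)) ^ K with hq
  have n1 := hw.near ξ h1
  rw [← hq, ← hy, ← he] at n1
  have hCe : 1 ≤ C * e := by nlinarith
  have n2 : C * e / q ≤ C * e := div_le_self (by positivity) hq1
  have n3 : ‖om w ξ‖ ≤ 2 * (C * e) := by
    have : om w ξ = (om w ξ - 1) + 1 := by ring
    rw [this]
    refine (norm_add_le _ _).trans ?_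
    rw [norm_one]
    linarith
  -- the Gaussian factor
  set ζ : ℂ := (ξ / L) ^ 2 / 4 with hζ
  have hζn : ‖ζ‖ = (ξ.re ^ 2 + ξ.im ^ 2) / L ^ 2 / 4 := by
    rw [hζ, norm_div, norm_pow, norm_div, Complex.norm_real, Real.norm_of_nonneg hL0.le, div_pow]
    have h5 : ‖ξ‖ ^ 2 = ξ.re ^ 2 + ξ.im ^ 2 := by
      rw [← Complex.normSq_eq_norm_sq, Complex.normSq_apply]; ring
    rw [h5]
    simp
  have hx2 : ξ.re ^ 2 ≤ H ^ 2 := by
    rw [← sq_abs]
    exact pow_le_pow_left₀ hx0 h1 2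
  have hy2 : ξ.im ^ 2 = y ^ 2 := (sq_abs _).symm
  have hy3 : y ^ 2 ≤ L ^ 2 / 4 := by
    have := pow_le_pow_left₀ hy0 h2 2
    linarith [this, (by ring : (L / 2) ^ 2 = L ^ 2 / 4)]
  have hζ4 : ‖ζ‖ ≤ 1 / 4 := by
    rw [hζn, hy2, div_div, div_le_iff₀ (by positivity)]
    have hL20 : 0 < L ^ 2 := by positivity
    linarith
  have hL20 : 0 < L ^ 2 := by positivity
  have hζe : ‖ζ‖ ≤ e / (2 * H) / 4 := by
    rw [hζn, hy2]
    refine div_le_div_of_nonneg_right ?_ (by norm_num)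
    rw [div_le_div_iff₀ hL20 (by positivity)]
    have h6 : ξ.re ^ 2 * (2 * H) ≤ e * L ^ 2 / 2 := by
      calc ξ.re ^ 2 * (2 * H) ≤ H ^ 2 * (2 * H) := by gcongr
        _ = (4 * H ^ 3) / 2 := by ring
        _ ≤ L ^ 2 / 2 := by linarith
        _ ≤ e * L ^ 2 / 2 := by nlinarith
    have h7 : y ^ 2 * (2 * H) ≤ e * L ^ 2 / 2 := by
      have h8 := quad_le hδ hy0
      calc y ^ 2 * (2 * H) ≤ (2 / δ ^ 2 * e) * (2 * H) := by gcongr
        _ = e * (8 * H / δ ^ 2) / 2 := by ring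
        _ ≤ e * L ^ 2 / 2 := by gcongr
    linarith
  have h9 : -(ξ / L) ^ 2 / 4 = -ζ := by rw [hζ]; ring
  have n5 : ‖1 - cexp (-(ξ / L) ^ 2 / 4)‖ ≤ e / H / 4 := by
    rw [h9]
    refine (one_sub_exp hζ4).trans ?_
    calc 2 * ‖ζ‖ ≤ 2 * (e / (2 * H) / 4) := by gcongr
      _ = e / H / 4 := by ring
  have n6 : ‖cexp (-(ξ / L) ^ 2 / 4)‖ ≤ 2 := by
    refine (gau_bd hL0 (ξ := ξ) h2).trans ?_
    have h3 : (L / 2) ^ 2 / L ^ 2 / 4 = 1 / 16 := by field_simp; norm_num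
    rw [h3]
    have h4 := Real.exp_bound_div_one_sub_of_interval (x := 1 / 16) (by norm_num) (by norm_num)
    refine h4.trans ?_
    norm_num
  obtain ⟨Ω, hΩ⟩ : ∃ Ω : ℂ, Ω = om w ξ * cexp (-(ξ / L) ^ 2 / 4) := ⟨_, rfl⟩
  rw [← hΩ]
  have h10 : 1 - Ω = (1 - om w ξ) + om w ξ * (1 - cexp (-(ξ / L) ^ 2 / 4)) := by rw [hΩ]; ring
  have n7 : ‖1 - Ω‖ ≤ C * e / q + 2 * (C * e) * (e / H / 4) := by
    rw [h10]
    refine (norm_add_le _ _).trans ?_
    rw [norm_mul, norm_sub_rev]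
    exact add_le_add n1 (mul_le_mul n3 n5 (norm_nonneg _) (by positivity))
  have n8 : ‖Ω‖ ≤ 4 * (C * e) := by
    rw [hΩ, norm_mul]
    calc ‖om w ξ‖ * ‖cexp (-(ξ / L) ^ 2 / 4)‖ ≤ (2 * (C * e)) * 2 := mul_le_mul n3 n6 (norm_nonneg _) (by positivity)
      _ = _ := by ring
  have he3 : Real.exp (3 * δ * y) = e ^ 3 := by
    rw [he, ← Real.exp_nat_mul]; congr 1; push_cast; ring
  have hP : Psi δ H K ξ.re y = e ^ 3 * (1 / q + 0 + 1 / H) := by
    unfold Psi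
    rw [he3, if_neg (by rintro ⟨h, -⟩; linarith), if_pos h1]
    have h12 : |(|ξ.re| - H)| = H - |ξ.re| := by rw [abs_of_nonpos (by linarith)]; ring
    rw [h12]
  rw [hP, add_zero]
  obtain ⟨S, hS⟩ : ∃ S : ℝ, S = 1 / q + 1 / H := ⟨_, rfl⟩
  rw [← hS]
  have hS0 : 0 ≤ S := by rw [hS]; positivity
  have n9 : ‖1 - Ω‖ ≤ C * e ^ 2 * S := by
    refine n7.trans ?_
    have h11 : C * e / q ≤ C * e ^ 2 * (1 / q) := by
      have : C * e / q = C * e * (1 / q) := by ring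
      rw [this]
      have h12 : C * e ≤ C * e ^ 2 := by nlinarith
      exact mul_le_mul_of_nonneg_right h12 (by positivity)
    have h13 : 2 * (C * e) * (e / H / 4) ≤ C * e ^ 2 * (1 / H) := by
      have : 2 * (C * e) * (e / H / 4) = C * e ^ 2 * (1 / H) / 2 := by ring
      rw [this]
      have : 0 ≤ C * e ^ 2 * (1 / H) := by positivity
      linarith
    rw [hS]
    linarith
  have he0 : 0 < e := by linarith
  have n10 : 8 * ‖1 - Ω‖ * (1 + ‖Ω‖) ≤ 40 * C ^ 2 * e ^ 3 * S := by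
    calc 8 * ‖1 - Ω‖ * (1 + ‖Ω‖) ≤ 8 * (C * e ^ 2 * S) * (5 * (C * e)) :=
          mul_le_mul (by linarith) (by linarith) (by positivity) (by positivity)
      _ = _ := by ring
  have n11 : 288 * C ^ 2 * ‖1 - Ω‖ ≤ 288 * C ^ 3 * e ^ 3 * S := by
    calc 288 * C ^ 2 * ‖1 - Ω‖ ≤ 288 * C ^ 2 * (C * e ^ 2 * S) := by gcongr
      _ = 288 * C ^ 3 * e ^ 2 * S := by ring
      _ ≤ 288 * C ^ 3 * e ^ 3 * S := by
        exact mul_le_mul_of_nonneg_right (mul_le_mul_of_nonneg_left (pow_le_pow_right₀ he1 (by norm_num)) (by positivity)) hS0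
  have n12 : C ^ 2 ≤ C ^ 4 := pow_le_pow_right₀ hC (by norm_num)
  have n13 : C ^ 3 ≤ C ^ 4 := pow_le_pow_right₀ hC (by norm_num)
  have hE : 0 ≤ e ^ 3 * S := by positivity
  have n14 : C ^ 2 * (e ^ 3 * S) ≤ C ^ 4 * (e ^ 3 * S) := mul_le_mul_of_nonneg_right n12 hE
  have n15 : C ^ 3 * (e ^ 3 * S) ≤ C ^ 4 * (e ^ 3 * S) := mul_le_mul_of_nonneg_right n13 hE
  have n16 : 0 ≤ C ^ 4 * (e ^ 3 * S) := by positivity
  linarith

end

open Classical in
set_option maxHeartbeats 4000000 in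
theorem t_DETI : J_DETI := by
  intro hGRM hISO g R lam hg hR hK hlam0 hlam1 η hη
  obtain ⟨d, hd0, hd8, hdφ⟩ := kap_near hg (η := η / 288) (by positivity)
  refine ⟨d, hd0, hd8, ?_⟩
  intro δ H C K w hδ hδ8 hH hC hK2 hw
  have t0 : Tendsto (fun T : ℝ => Real.log T ^ 2) atTop atTop :=
    (tendsto_pow_atTop (by norm_num : (2 : ℕ) ≠ 0)).comp Real.tendsto_log_atTop
  filter_upwards [t0.eventually_ge_atTop (4 * H ^ 2), t0.eventually_ge_atTop (4 * H ^ 3),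
    t0.eventually_ge_atTop (8 * H / δ ^ 2), Real.tendsto_log_atTop.eventually_ge_atTop 1,
    eventually_ge_atTop (10 : ℝ)] with T hL1 hL2 hL3 hL1' hT t ht1 ht2
  set L := Real.log T with hL
  have hL0 : 0 < L := by linarith
  have hF := H370.good_zeta
  have hU : (1 : ℝ) ≤ T + 1 := by linarith
  set W := ZT T with hW
  set Z : Finset ℂ := W.image H370.zz with hZ
  set m : ℂ → ℕ := fun z => mz (1 / 2 + I * z) with hm
  have hback : ∀ s : ℂ, (1 / 2 + I * H370.zz s) = s := by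
    intro s
    have := H370.zz_spec s
    linear_combination -this
  have hmz : ∀ s : ℂ, m (H370.zz s) = mz s := by
    intro s; simp only [hm]; rw [hback]
  have hWm : ∀ s ∈ W, s ∈ H370.zset riemannZeta (T + 1) (2 * T - 1) := fun s hs => (H370.mem_Zf hF hU).mp hs
  have hWpos : ∀ s ∈ W, 1 ≤ mz s := by
    intro s hs
    have := hWm s hs
    exact H370.Loc.mult_pos' hF (by linarith [this.2.2.1]) this.2.2.2.2
  have hZc : ∀ z ∈ Z, (starRingEnd ℂ) z ∈ Z := by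
    intro z hz
    rw [hZ, Finset.mem_image] at hz
    obtain ⟨s, hs, rfl⟩ := hz
    rw [← H370.zz_refl]
    exact Finset.mem_image_of_mem _ ((H370.mem_Zf hF hU).mpr (H370.zset_refl hF hU (hWm s hs)))
  have hmp : ∀ z ∈ Z, 1 ≤ m z := by
    intro z hz
    rw [hZ, Finset.mem_image] at hz
    obtain ⟨s, hs, rfl⟩ := hz
    rw [hmz]
    exact hWpos s hs
  have hmc : ∀ z ∈ Z, m ((starRingEnd ℂ) z) = m z := by
    intro z hz
    rw [hZ, Finset.mem_image] at hz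
    obtain ⟨s, hs, rfl⟩ := hz
    have := hWm s hs
    rw [← H370.zz_refl, hmz, hmz]
    exact H370.mult_refl hF this.1 this.2.1 (by linarith [this.2.2.1])
  have hsumW : ∀ (f : ℂ → ℝ), ∑ z ∈ Z, f z = ∑ s ∈ W, f (H370.zz s) := by
    intro f
    rw [hZ, Finset.sum_image (fun s _ s' _ h => H370.zz_inj h)]
  have hsumC : ∀ (f : ℂ → ℂ), ∑ z ∈ Z, f z = ∑ s ∈ W, f (H370.zz s) := by
    intro f
    rw [hZ, Finset.sum_image (fun s _ s' _ h => H370.zz_inj h)]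
  have hsumF : ∀ (P : ℂ → Prop) [DecidablePred P] (f : ℂ → ℝ), ∑ z ∈ Z.filter P, f z =
      ∑ s ∈ W.filter (fun s => P (H370.zz s)), f (H370.zz s) := by
    intro P _ f
    rw [hZ, Finset.filter_image, Finset.sum_image (fun s _ s' _ h => H370.zz_inj h)]
  have hcardF : ∀ (P : ℂ → Prop) [DecidablePred P],
      (Z.filter P).card = (W.filter (fun s => P (H370.zz s))).card := by
    intro P _
    rw [hZ, Finset.filter_image, Finset.card_image_of_injective _ (fun s s' h => H370.zz_inj h)]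
  have hsm : ∀ z ∈ Z, |z.im| ≤ 1 / 2 := by
    intro z hz
    rw [hZ, Finset.mem_image] at hz
    obtain ⟨s, hs, rfl⟩ := hz
    have := hWm s hs
    rw [H370.zz_im, abs_neg, abs_le]
    constructor <;> linarith [this.1, this.2.1]
  -- the objects of the trace inequality
  set Λ : ℝ := lam * L with hΛ
  have hΛ0 : 0 ≤ Λ := by positivity
  have hΛL : Λ ≤ L := by rw [hΛ]; nlinarith
  obtain ⟨a, ha⟩ : ∃ a : ℂ → Prop, a = fun z => |z.re - t| ≤ H / L := ⟨_, rfl⟩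
  set X : ℂ → ℂ := fun z => L * (z - t) with hX
  have hXre : ∀ z, (X z).re = L * (z.re - t) := by
    intro z; simp only [hX]; rw [Complex.re_ofReal_mul]; simp
  have hXim : ∀ z, (X z).im = L * z.im := by
    intro z; simp only [hX]; rw [Complex.im_ofReal_mul]; simp
  have hXrea : ∀ z, |(X z).re| = L * |z.re - t| := by
    intro z; rw [hXre, abs_mul, abs_of_pos hL0]
  have hXima : ∀ z, |(X z).im| = L * |z.im| := by
    intro z; rw [hXim, abs_mul, abs_of_pos hL0]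
  have haX : ∀ z, a z ↔ |(X z).re| ≤ H := by
    intro z
    simp only [ha]
    rw [hXrea, le_div_iff₀ hL0, mul_comm]
  obtain ⟨far, hfar⟩ : ∃ far : ℂ → Prop,
    far = fun z => H < |(X z).re| ∧ (1 + (|(X z).re| - H)) ^ K < Real.exp |(X z).im| := ⟨_, rfl⟩
  have hac : ∀ z, a ((starRingEnd ℂ) z) ↔ a z := by
    intro z; simp only [ha, Complex.conj_re]
  have hfar0 : ∀ z, far z → z.im ≠ 0 := by
    intro z hz h0
    rw [hfar] at hz
    obtain ⟨h1, h2⟩ := hz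
    rw [hXim, h0, mul_zero, abs_zero, Real.exp_zero] at h2
    have : 1 ≤ (1 + (|(X z).re| - H)) ^ K := one_le_pow₀ (by linarith)
    linarith
  set ω : ℂ → ℂ := fun z => om w (X z) * cexp (-(z - t) ^ 2 / 4) with hω
  have hXc : ∀ z, X ((starRingEnd ℂ) z) = (starRingEnd ℂ) (X z) := by
    intro z
    simp only [hX, map_mul, map_sub, Complex.conj_ofReal]
  have hωc : ∀ z, ω ((starRingEnd ℂ) z) = (starRingEnd ℂ) (ω z) := by
    intro z
    simp only [hω]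
    rw [map_mul, hXc, om_conj hw, ← Complex.exp_conj]
    congr 2
    rw [map_div₀, map_neg, map_pow, map_sub, Complex.conj_ofReal]
    congr 1
    exact (Complex.conj_ofNat 4).symm
  have hω1 : ∀ z, ω z = om w (X z) * cexp (-(X z / L) ^ 2 / 4) := by
    intro z
    simp only [hω, hX]
    have hLc : (L : ℂ) ≠ 0 := by exact_mod_cast hL0.ne'
    rw [mul_div_cancel_left₀ _ hLc]
  have hω2 : ∀ z, ω z ^ 2 = om w (X z) ^ 2 * cexp (-(X z / L) ^ 2 / 2) := by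
    intro z
    simp only [hω, hX]
    rw [mul_pow, ← Complex.exp_nat_mul]
    have hLc : (L : ℂ) ≠ 0 := by exact_mod_cast hL0.ne'
    rw [mul_div_cancel_left₀ _ hLc]
    congr 2
    push_cast
    ring
  have hω2' : ∀ z, ω z ^ 2 = om w (L * (z - t)) ^ 2 * cexp (-(z - t) ^ 2 / 2) := by
    intro z
    rw [hω2]
    simp only [hX]
    have hLc : (L : ℂ) ≠ 0 := by exact_mod_cast hL0.ne'
    rw [mul_div_cancel_left₀ _ hLc]
  obtain ⟨E, iE1, iE2, k, hk⟩ := hGRM g hg Λ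
  set φ : ℂ → ℂ := fun z => H295SI.kapG g (Λ * z) with hφ
  have hφe : ∀ z, φ (-z) = φ z := by
    intro z
    simp only [hφ]
    rw [mul_neg, H143TG.kapG_even hg]
  have hφ0 : φ 0 = 1 := by
    simp only [hφ]
    rw [mul_zero, H143TG.kapG_zero hg]
  have hφη : ∀ u : ℂ, ‖u‖ ≤ 6 * (d / L) → ‖φ u - 1‖ ≤ η / 288 := by
    intro u hu
    simp only [hφ]
    refine hdφ _ ?_
    rw [norm_mul, Complex.norm_real, Real.norm_of_nonneg hΛ0]
    calc Λ * ‖u‖ ≤ L * (6 * (d / L)) := mul_le_mul hΛL hu (norm_nonneg _) hL0.le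
      _ = 6 * d := by field_simp
  have hM : ∀ z ∈ Z, a z → |z.im| < d / L → ‖ω z‖ ≤ 3 * C := by
    intro z hz haz him
    have h1 : |(X z).im| ≤ 1 / 8 := by
      rw [hXima]
      rw [lt_div_iff₀ hL0] at him
      linarith
    rw [hω1]
    exact om_bd hδ.le hδ8 hC hw hL0 hL1' ((haX z).1 haz) h1
  have hcount := hISO E iE1 iE2 φ k hk hφe hφ0 Z m hZc hmp hmc ω hωc a far hac hfar0 (d / L) (η / 288) (3 * C)
    (by positivity) (by positivity) (by linarith) hφη hM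
  -- the numbers
  set x1 : ℝ := ((Z.filter (fun z => a z ∧ z.im = 0 ∧ m z = 1 ∧ ∀ w ∈ Z, a w → w ≠ z → d / L ≤ ‖z - w‖)).card : ℝ) with hx1
  have hX1 : x1 = Niw d T (H / L) t := by
    rw [hx1]
    unfold Niw
    rw [hcardF]
    congr 2
    ext s
    simp only [Finset.mem_filter, ha, hmz, H370.zz_re, H370.zz_im]
    have hzd : ∀ s' : ℂ, ‖H370.zz s - H370.zz s'‖ = ‖s - s'‖ := by
      intro s'
      have e1 : s - s' = I * (H370.zz s - H370.zz s') := by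
        linear_combination (H370.zz_spec s) - (H370.zz_spec s')
      rw [e1, norm_mul, Complex.norm_I, one_mul]
    constructor
    · rintro ⟨h1, h2, h3, h4, h5⟩
      refine ⟨h1, by linarith, h4, h2, fun s' hs' h6 h7 => ?_⟩
      rw [← hzd]
      refine h5 _ (Finset.mem_image_of_mem _ hs') (by rw [H370.zz_re]; exact h6) fun h8 => h7 (H370.zz_inj h8)
    · rintro ⟨h1, h2, h3, h4, h5⟩
      refine ⟨h1, h4, by rw [h2]; ring, h3, fun w hw' h6 h7 => ?_⟩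
      obtain ⟨s', hs', rfl⟩ := Finset.mem_image.1 hw'
      rw [hzd]
      refine h5 s' hs' (by rw [H370.zz_re] at h6; exact h6) fun h8 => h7 (by rw [h8])
  have hN : ∑ z ∈ Z.filter a, (m z : ℝ) = Nw T (H / L) t := by
    rw [hsumF]
    unfold Nw
    refine Finset.sum_congr ?_ fun s _ => by rw [hmz]
    ext s
    simp only [Finset.mem_filter, ha, H370.zz_re]
    exact Iff.rfl
  -- the error term as a sum over `Z`
  set P : ℂ → ℝ := fun z => Psi δ H K (X z).re |(X z).im| with hP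
  have hP0 : ∀ z, 0 ≤ P z := fun z => Psi_nonneg (by linarith) _ _
  have hErr : ErrS δ H K T t = ∑ z ∈ Z, (m z : ℝ) * P z := by
    rw [hsumW]
    unfold ErrS
    refine Finset.sum_congr rfl fun s _ => ?_
    rw [hmz]
    simp only [hP]
    rw [hXre, hXima, H370.zz_re, H370.zz_im, abs_neg]
  have hm0 : ∀ z : ℂ, (0 : ℝ) ≤ m z := fun z => Nat.cast_nonneg _
  have himL : ∀ z ∈ Z, |(X z).im| ≤ L / 2 := by
    intro z hz
    rw [hXima]
    have := hsm z hz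
    nlinarith
  -- pointwise bounds
  have near : ∀ z ∈ Z, a z → 8 * ‖1 - ω z‖ * (1 + ‖ω z‖) + 288 * C ^ 2 * ‖1 - ω z‖ ≤ 400 * C ^ 4 * P z := by
    intro z hz haz
    rw [hω1]
    exact near_bd1 hδ hH hC hw hL0 hL1 hL2 hL3 ((haX z).1 haz) (himL z hz)
  have hCC : 1 ≤ C ^ 2 := one_le_pow₀ hC
  have out : ∀ z ∈ Z, ¬ a z → ∃ e q : ℝ, 1 ≤ e ∧ 1 ≤ q ∧ ‖ω z‖ ^ 2 ≤ 2 * C ^ 2 * e ^ 2 / q ^ 2 ∧
      P z = e ^ 3 * (1 / q + if q < Real.exp |(X z).im| then 1 else 0) ∧ q = (1 + (|(X z).re| - H)) ^ K := by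
    intro z hz haz
    have h1 : H < |(X z).re| := by
      rw [haX, not_le] at haz
      exact haz
    refine ⟨Real.exp (δ * |(X z).im|), (1 + (|(X z).re| - H)) ^ K, one_le_ex hδ.le (abs_nonneg _),
      one_le_pow₀ (by linarith), ?_, ?_, rfl⟩
    · rw [← norm_pow, hω2]
      exact far_bd hw hC hL0 h1 (himL z hz)
    · simp only [hP]
      rw [Psi_out h1]
      congr 1
      rw [← Real.exp_nat_mul]
      congr 1
      push_cast
      ring
  -- sums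
  have hsplit : ∑ z ∈ Z.filter a, (m z : ℝ) * P z + (∑ z ∈ Z.filter (fun z => ¬ a z ∧ ¬ far z), (m z : ℝ) * P z +
      ∑ z ∈ Z.filter (fun z => ¬ a z ∧ far z), (m z : ℝ) * P z) = ∑ z ∈ Z, (m z : ℝ) * P z := by
    rw [← Finset.sum_filter_add_sum_filter_not Z a]
    congr 1
    rw [← Finset.sum_filter_add_sum_filter_not (Z.filter fun z => ¬ a z) far, Finset.filter_filter,
      Finset.filter_filter, add_comm]
  set Ea := ∑ z ∈ Z.filter a, (m z : ℝ) * P z with hEa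
  set En := ∑ z ∈ Z.filter (fun z => ¬ a z ∧ ¬ far z), (m z : ℝ) * P z with hEn
  set Ef := ∑ z ∈ Z.filter (fun z => ¬ a z ∧ far z), (m z : ℝ) * P z with hEf
  have hEa0 : 0 ≤ Ea := Finset.sum_nonneg fun z _ => mul_nonneg (hm0 z) (hP0 z)
  have hEn0 : 0 ≤ En := Finset.sum_nonneg fun z _ => mul_nonneg (hm0 z) (hP0 z)
  have hEf0 : 0 ≤ Ef := Finset.sum_nonneg fun z _ => mul_nonneg (hm0 z) (hP0 z)
  have b1 : ∑ z ∈ Z.filter a, (m z : ℝ) * (8 * ‖1 - ω z‖ * (1 + ‖ω z‖) + 32 * (3 * C) ^ 2 * (η / 288 + ‖1 - ω z‖)) ≤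
      400 * C ^ 4 * Ea + η * C ^ 2 * Nw T (H / L) t := by
    rw [← hN, hEa, Finset.mul_sum, Finset.mul_sum, ← Finset.sum_add_distrib]
    refine Finset.sum_le_sum fun z hz => ?_
    rw [Finset.mem_filter] at hz
    have h1 := mul_le_mul_of_nonneg_left (near z hz.1 hz.2) (hm0 z)
    have h2 : (m z : ℝ) * (8 * ‖1 - ω z‖ * (1 + ‖ω z‖) + 32 * (3 * C) ^ 2 * (η / 288 + ‖1 - ω z‖)) =
        (m z : ℝ) * (8 * ‖1 - ω z‖ * (1 + ‖ω z‖) + 288 * C ^ 2 * ‖1 - ω z‖) + η * C ^ 2 * m z := by ring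
    rw [h2]
    linarith
  have b3 : ∑ z ∈ Z.filter (fun z => ¬ a z ∧ ¬ far z),
      4 * (m z : ℝ) * (‖ω z‖ ^ 2 * (‖φ (z - (starRingEnd ℂ) z)‖ + 1)) ≤ 16 * C ^ 2 * En := by
    rw [hEn, Finset.mul_sum]
    refine Finset.sum_le_sum fun z hz => ?_
    rw [Finset.mem_filter] at hz
    obtain ⟨hz1, hz2, hz3⟩ := hz
    obtain ⟨e, q, he, hq, ho1, ho2, ho3⟩ := out z hz1 hz2
    have h1 : H < |(X z).re| := by
      rw [haX, not_le] at hz2
      exact hz2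
    have h2 : Real.exp |(X z).im| ≤ q := by
      by_contra hcon
      rw [not_le, ho3] at hcon
      exact hz3 (by rw [hfar]; exact ⟨h1, hcon⟩)
    have h3 : ‖φ (z - (starRingEnd ℂ) z)‖ ≤ q := by
      refine (kap_bd hg hΛ0 z).trans (le_trans (Real.exp_le_exp.2 ?_) h2)
      rw [hXima]
      exact mul_le_mul_of_nonneg_right hΛL (abs_nonneg _)
    have h4 : ‖ω z‖ ^ 2 * (‖φ (z - (starRingEnd ℂ) z)‖ + 1) ≤ (2 * C ^ 2 * e ^ 2 / q ^ 2) * (2 * q) :=
      mul_le_mul ho1 (by linarith) (by positivity) (by positivity)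
    have h5 : (2 * C ^ 2 * e ^ 2 / q ^ 2) * (2 * q) = 4 * C ^ 2 * (e ^ 2 * (1 / q)) := by
      field_simp
      ring
    have h6 : e ^ 2 * (1 / q) ≤ P z := by
      rw [ho2, if_neg (not_lt.2 h2), add_zero]
      exact mul_le_mul_of_nonneg_right (pow_le_pow_right₀ he (by norm_num)) (by positivity)
    have h7 : ‖ω z‖ ^ 2 * (‖φ (z - (starRingEnd ℂ) z)‖ + 1) ≤ 4 * C ^ 2 * P z := by
      refine h4.trans ?_
      rw [h5]
      exact mul_le_mul_of_nonneg_left h6 (by positivity)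
    have := mul_le_mul_of_nonneg_left h7 (by have := hm0 z; positivity : 0 ≤ 4 * (m z : ℝ))
    linarith
  have b4 : ∑ z ∈ Z.filter (fun z => ¬ a z ∧ far z), (m z : ℝ) * (8 * ‖ω z‖ ^ 2 + 4) ≤ 20 * C ^ 2 * Ef := by
    rw [hEf, Finset.mul_sum]
    refine Finset.sum_le_sum fun z hz => ?_
    rw [Finset.mem_filter] at hz
    obtain ⟨hz1, hz2, hz3⟩ := hz
    obtain ⟨e, q, he, hq, ho1, ho2, ho3⟩ := out z hz1 hz2
    have h2 : q < Real.exp |(X z).im| := by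
      rw [hfar] at hz3
      rw [ho3]; exact hz3.2
    rw [if_pos h2] at ho2
    have h3 : 1 ≤ e ^ 3 := one_le_pow₀ he
    have h4 : 8 * ‖ω z‖ ^ 2 + 4 ≤ 20 * C ^ 2 * P z := by
      have h5 : 2 * C ^ 2 * e ^ 2 / q ^ 2 ≤ 2 * C ^ 2 * e ^ 3 := by
        have h6 : 2 * C ^ 2 * e ^ 2 / q ^ 2 ≤ 2 * C ^ 2 * e ^ 2 :=
          div_le_self (by positivity) (one_le_pow₀ hq)
        refine h6.trans ?_
        exact mul_le_mul_of_nonneg_left (pow_le_pow_right₀ he (by norm_num)) (by positivity)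
      have h7 : e ^ 3 ≤ P z := by
        rw [ho2]
        have : 0 ≤ e ^ 3 * (1 / q) := by positivity
        nlinarith
      have h8 : 4 ≤ 4 * C ^ 2 * e ^ 3 := by nlinarith
      have h9 : C ^ 2 * e ^ 3 ≤ C ^ 2 * P z := mul_le_mul_of_nonneg_left h7 (by positivity)
      nlinarith
    have := mul_le_mul_of_nonneg_left h4 (hm0 z)
    linarith
  -- the pair sum
  have hcj : ∀ u : ℝ, ∑ z ∈ Z, ((m z : ℂ) * ω z ^ 2) * cexp (-(I * u * z)) =
      conj (∑ z ∈ Z, ((m z : ℂ) * ω z ^ 2) * cexp (I * u * z)) := by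
    intro u
    rw [map_sum]
    have h1 : ∑ z ∈ Z, ((m z : ℂ) * ω z ^ 2) * cexp (-(I * u * z)) =
        ∑ z ∈ Z, ((m ((starRingEnd ℂ) z) : ℂ) * ω ((starRingEnd ℂ) z) ^ 2) * cexp (-(I * u * (starRingEnd ℂ) z)) := by
      refine Finset.sum_nbij' (fun z => (starRingEnd ℂ) z) (fun z => (starRingEnd ℂ) z) (fun z hz => hZc z hz)
        (fun z hz => hZc z hz) (fun z _ => Complex.conj_conj z) (fun z _ => Complex.conj_conj z) fun z _ => ?_
      rw [Complex.conj_conj]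
    rw [h1]
    refine Finset.sum_congr rfl fun z hz => ?_
    have h2 : (starRingEnd ℂ) (cexp (I * u * z)) = cexp (-(I * u * (starRingEnd ℂ) z)) := by
      rw [← Complex.exp_conj]
      congr 1
      rw [map_mul, map_mul, Complex.conj_I, Complex.conj_ofReal]
      ring
    rw [hmc z hz, hωc, map_mul (starRingEnd ℂ) ((m z : ℂ) * ω z ^ 2) (cexp (I * u * z)),
      map_mul (starRingEnd ℂ) (m z : ℂ) (ω z ^ 2), map_pow, h2, map_natCast]
  have hQ : (∑ z ∈ Z, ∑ w ∈ Z, (m z : ℂ) * (m w : ℂ) * (ω z * ω w * φ (z - w)) ^ 2).re =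
      2 * ∫ α in (0 : ℝ)..1, R α * ‖Zt w T (lam * L * α) t‖ ^ 2 := by
    have h1 := pair_int hR hK Z (fun z => (m z : ℂ) * ω z ^ 2) Λ hcj
    have h2 : ∑ z ∈ Z, ∑ w ∈ Z, (m z : ℂ) * (m w : ℂ) * (ω z * ω w * φ (z - w)) ^ 2 =
        ∑ z ∈ Z, ∑ w ∈ Z, ((m z : ℂ) * ω z ^ 2) * ((m w : ℂ) * ω w ^ 2) * H295SI.kapG g (Λ * (z - w)) ^ 2 := by
      refine Finset.sum_congr rfl fun z _ => Finset.sum_congr rfl fun w _ => ?_
      simp only [hφ]
      ring
    rw [h2, h1]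
    congr 1
    apply intervalIntegral.integral_congr
    intro α _
    simp only
    congr 3
    rw [hsumC]
    unfold Zt
    refine Finset.sum_congr rfl fun s _ => ?_
    rw [hmz, hω2']
    ring
  rw [hQ, hN] at hcount
  rw [hErr, ← hsplit, ← hX1]
  set Q := 2 * ∫ α in (0 : ℝ)..1, R α * ‖Zt w T (lam * L * α) t‖ ^ 2 with hQd
  have hC4 : C ^ 2 ≤ C ^ 4 := pow_le_pow_right₀ hC (by norm_num)
  have hCa : 0 ≤ C ^ 4 * Ea := by positivity
  have hCn : C ^ 2 * En ≤ C ^ 4 * En := mul_le_mul_of_nonneg_right hC4 hEn0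
  have hCf : C ^ 2 * Ef ≤ C ^ 4 * Ef := mul_le_mul_of_nonneg_right hC4 hEf0
  have hCn0 : 0 ≤ C ^ 2 * En := by positivity
  have hCf0 : 0 ≤ C ^ 2 * Ef := by positivity
  linarith [hcount, b1, b3, b4]

end

end Pool.Agent.Q148.UM
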