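import Pool.Agent.Q97.UM.Wc
import Pool.Agent.Q97.UM.Stm11

set_option autoImplicit false

/-! Project UM5 (helper97), job WINI: isolated zeros in windows (adapted from Q97/UM/Wb.lean and Q97/UM/Wc.lean). -/

namespace Pool.Agent.Q148.UM

open Filter Topology MeasureTheory Complex
open scoped ComplexConjugate
open Pool.Agent.Q97.UM

open Classical in
lemma Niw_meas (d T r : ℝ) : Measurable (Niw d T r) ∧ ∃ B, ∀ t, |Niw d T r t| ≤ B := by
  have h := sum_filter_meas (ZT T) (fun s t => s.re = 1 / 2 ∧ mz s = 1 ∧ |s.im - t| ≤ r ∧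
      ∀ s' ∈ ZT T, |s'.im - t| ≤ r → s' ≠ s → d / Real.log T ≤ ‖s - s'‖)
    (fun s => by
      by_cases h1 : s.re = 1 / 2 ∧ mz s = 1
      · have e : {t : ℝ | s.re = 1 / 2 ∧ mz s = 1 ∧ |s.im - t| ≤ r ∧
            ∀ s' ∈ ZT T, |s'.im - t| ≤ r → s' ≠ s → d / Real.log T ≤ ‖s - s'‖} = {t : ℝ | |s.im - t| ≤ r} ∩
            ⋂ s' ∈ ZT T, {t : ℝ | |s'.im - t| ≤ r → s' ≠ s → d / Real.log T ≤ ‖s - s'‖} := by
          ext t
          simp only [Set.mem_ofPred_eq, Set.mem_inter_iff, Set.mem_iInter]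
          exact ⟨fun h => h.2.2, fun h => ⟨h1.1, h1.2, h⟩⟩
        rw [e]
        refine (meas_near s r).inter (Finset.measurableSet_biInter _ fun s' _ => ?_)
        by_cases h2 : s' ≠ s → d / Real.log T ≤ ‖s - s'‖
        · have : {t : ℝ | |s'.im - t| ≤ r → s' ≠ s → d / Real.log T ≤ ‖s - s'‖} = Set.univ := by
            ext t
            exact ⟨fun _ => Set.mem_univ _, fun _ _ => h2⟩
          rw [this]; exact MeasurableSet.univ
        · have : {t : ℝ | |s'.im - t| ≤ r → s' ≠ s → d / Real.log T ≤ ‖s - s'‖} = {t : ℝ | |s'.im - t| ≤ r}ᶜ := by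
            ext t
            exact ⟨fun h h3 => h2 (h h3), fun h h3 => absurd h3 h⟩
          rw [this]; exact (meas_near s' r).compl
      · have : {t : ℝ | s.re = 1 / 2 ∧ mz s = 1 ∧ |s.im - t| ≤ r ∧
            ∀ s' ∈ ZT T, |s'.im - t| ≤ r → s' ≠ s → d / Real.log T ≤ ‖s - s'‖} = ∅ := by
          ext t
          exact ⟨fun h => absurd ⟨h.1, h.2.1⟩ h1, fun h => absurd h (Set.notMem_empty t)⟩
        rw [this]; exact MeasurableSet.empty) (fun _ => (1 : ℝ))
  have e : Niw d T r = fun t => ∑ i ∈ (ZT T).filter (fun s => s.re = 1 / 2 ∧ mz s = 1 ∧ |s.im - t| ≤ r ∧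
      ∀ s' ∈ ZT T, |s'.im - t| ≤ r → s' ≠ s → d / Real.log T ≤ ‖s - s'‖), (1 : ℝ) := by
    funext t
    unfold Niw
    rw [Finset.sum_const, nsmul_eq_mul, mul_one]
  rw [e]
  refine ⟨?_, ∑ i ∈ ZT T, |(1 : ℝ)|, fun t => ?_⟩
  · convert h.1
  · convert h.2 t

/-- the integrated inequality -/
lemma core_iso {δ H C d η : ℝ} {K : ℕ} {w : ℝ → ℝ} (h : OmW δ H C K w) (hδ : 0 < δ) (hH : 1 ≤ H) {R V : ℝ → ℝ}
    (hR : Continuous R) (hV : Continuous V) (hV0 : ∀ t, 0 ≤ V t) {T lam x y : ℝ} (hxy : x ≤ y)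
    (hdet : ∀ t : ℝ, x ≤ t → t ≤ y →
      2 * Nw T (H / Real.log T) t - Niw d T (H / Real.log T) t ≤
        2 * (∫ α in (0 : ℝ)..1, R α * ‖Zt w T (lam * Real.log T * α) t‖ ^ 2) + 10000 * C ^ 4 * ErrS δ H K T t +
        η * C ^ 2 * Nw T (H / Real.log T) t) :
    2 * (∫ t in x..y, Nw T (H / Real.log T) t * V t) - ∫ t in x..y, Niw d T (H / Real.log T) t * V t ≤
        2 * (∫ α in (0 : ℝ)..1, R α * ∫ t in x..y, ‖Zt w T (lam * Real.log T * α) t‖ ^ 2 * V t) +
          10000 * C ^ 4 * (∫ t in x..y, ErrS δ H K T t * V t) +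
          η * C ^ 2 * ∫ t in x..y, Nw T (H / Real.log T) t * V t := by
  set r := H / Real.log T with hr
  obtain ⟨mN, B1, bN⟩ := Nw_meas T r
  obtain ⟨mS, B2, bS⟩ := Niw_meas d T r
  obtain ⟨mE, ⟨B4, bE⟩, eE⟩ := ErrS_meas (δ := δ) hH K T
  have iN := ii_mul mN bN hV x y
  have iS := ii_mul mS bS hV x y
  have iE := ii_mul mE bE hV x y
  have iP : IntervalIntegrable (fun t => (2 * ∫ α in (0 : ℝ)..1, R α * ‖Zt w T (lam * Real.log T * α) t‖ ^ 2) * V t) volume x y := by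
    refine Continuous.intervalIntegrable ?_ _ _
    refine Continuous.mul (continuous_const.mul ?_) hV
    refine intervalIntegral.continuous_parametric_intervalIntegral_of_continuous' ?_ _ _
    have hc := Zt_cont h hδ T (lam * Real.log T)
    exact (hR.comp continuous_snd).mul (((hc.comp (continuous_snd.prodMk continuous_fst)).norm).pow 2)
  have hsw := swap_pair h hδ hR hV T (lam * Real.log T) x y
  have h1 : ∫ t in x..y, (2 * (Nw T r t * V t) - Niw d T r t * V t) ≤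
      ∫ t in x..y, (((2 * ∫ α in (0 : ℝ)..1, R α * ‖Zt w T (lam * Real.log T * α) t‖ ^ 2) * V t +
        10000 * C ^ 4 * (ErrS δ H K T t * V t)) + η * C ^ 2 * (Nw T r t * V t)) := by
    refine intervalIntegral.integral_mono_on hxy ((iN.const_mul 2).sub iS)
      ((iP.add (iE.const_mul _)).add (iN.const_mul _)) fun t ht => ?_
    have h3 := mul_le_mul_of_nonneg_right (hdet t ht.1 ht.2) (hV0 t)
    linarith
  rw [intervalIntegral.integral_sub (iN.const_mul 2) iS, intervalIntegral.integral_add (iP.add (iE.const_mul _)) (iN.const_mul _),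
    intervalIntegral.integral_add iP (iE.const_mul _), intervalIntegral.integral_const_mul, intervalIntegral.integral_const_mul,
    intervalIntegral.integral_const_mul, hsw] at h1
  exact h1

theorem t_WINI : J_WINI := by
  intro hOM hQH hMV hPA hLI hDE hED hER hMT hTA hWN ε₀ hε₀
  obtain ⟨e, he⟩ : ∃ e, e = min ε₀ 1 := ⟨_, rfl⟩
  have he0 : 0 < e := by rw [he]; positivity
  have he1 : e ≤ 1 := by rw [he]; exact min_le_right _ _
  have hee : e ≤ ε₀ := by rw [he]; exact min_le_left _ _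
  obtain ⟨lam, g, R, hl0, hl1, hg, hR, hK, hcR⟩ := hMT (e / 16) (by positivity)
  obtain ⟨D, hD0, hD⟩ := hR.lip
  obtain ⟨C₁, hC₁, hPA⟩ := hPA R D lam hD hl0 hl1
  obtain ⟨ϑ, c₀, C', hϑ0, hϑ1, hc₀, hC', hTB⟩ := hTA
  obtain ⟨C₂, hC₂, hEDB⟩ := hED ϑ c₀ C' hϑ0 hϑ1 hc₀ hC' hTB
  obtain ⟨c, hc⟩ : ∃ c, c = min (c₀ / 4) 1 := ⟨_, rfl⟩
  have hc0 : 0 < c := by rw [hc]; positivity
  have hEDB' : EDB (ϑ / 2) c C₂ := EDB_mono hC₂ (by rw [hc]; exact min_le_left _ _) hEDB
  obtain ⟨K₀, hER⟩ := hER (ϑ / 2) c C₂ (by positivity) (by linarith) hc0 (by rw [hc]; exact min_le_right _ _) hC₂ hEDB'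
  obtain ⟨K, hKd⟩ : ∃ K, K = max K₀ 2 := ⟨_, rfl⟩
  have hK2 : 2 ≤ K := by rw [hKd]; exact le_max_right _ _
  have hKK : K₀ ≤ K := by rw [hKd]; exact le_max_left _ _
  obtain ⟨η, hη⟩ : ∃ η, η = e / (64 * C₁) := ⟨_, rfl⟩
  have hη0 : 0 < η := by rw [hη]; positivity
  have hηC : C₁ * η ≤ e / 64 := by
    rw [hη]
    have : C₁ * (e / (64 * C₁)) = e / 64 := by field_simp
    rw [this]
  obtain ⟨δ, hδ⟩ : ∃ δ, δ = min (min (c / 100) (1 / 16)) (min (min (lam / 3) ((1 - lam) / 8)) (η ^ 2)) := ⟨_, rfl⟩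
  have hδ0 : 0 < δ := by
    rw [hδ]
    have : 0 < 1 - lam := by linarith
    positivity
  have hδ1 : δ ≤ c / 100 := by rw [hδ]; exact (min_le_left _ _).trans (min_le_left _ _)
  have hδ2 : δ ≤ 1 / 16 := by rw [hδ]; exact (min_le_left _ _).trans (min_le_right _ _)
  have hδ3 : δ ≤ lam / 3 := by
    rw [hδ]; exact (min_le_right _ _).trans ((min_le_left _ _).trans (min_le_left _ _))
  have hδ4 : δ ≤ (1 - lam) / 8 := by
    rw [hδ]; exact (min_le_right _ _).trans ((min_le_left _ _).trans (min_le_right _ _))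
  have hδ5 : δ ≤ η ^ 2 := by rw [hδ]; exact (min_le_right _ _).trans (min_le_right _ _)
  obtain ⟨C₄, hC₄, hER⟩ := hER K hKK δ hδ0 hδ1
  obtain ⟨Cw, hCw, hOM⟩ := hOM K δ hδ0 (by linarith)
  have hpi := Real.pi_pos
  obtain ⟨ηd, hηd⟩ : ∃ ηd, ηd = e / (64 * Cw ^ 2) := ⟨_, rfl⟩
  have hηd0 : 0 < ηd := by rw [hηd]; positivity
  have hηdC : ηd * Cw ^ 2 = e / 64 := by rw [hηd]; field_simp
  obtain ⟨d, hd0, hd8, hDE⟩ := hDE g R lam hg hR hK hl0 hl1.le ηd hηd0
  obtain ⟨H₁, hH₁, hWN⟩ := hWN (e / 32) (by positivity)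
  -- the threshold for `h = H / π`
  obtain ⟨h₀, hh₀⟩ : ∃ h₀ : ℝ, h₀ = 32 / e * (4 * Cw ^ 2 + 10000 * Cw ^ 4 * C₄ + 8 * Cw ^ 4) + H₁ := ⟨_, rfl⟩
  have hh00 : 0 ≤ h₀ := by rw [hh₀]; positivity
  have hh01 : H₁ ≤ h₀ := by
    rw [hh₀]
    have : 0 ≤ 32 / e * (4 * Cw ^ 2 + 10000 * Cw ^ 4 * C₄ + 8 * Cw ^ 4) := by positivity
    linarith
  refine ⟨1 + Real.pi * h₀ + 4 * Cw ^ 4, by nlinarith [pow_pos (by linarith : 0 < Cw) 4], fun H hH => ?_⟩
  have hCw4 : 0 < Cw ^ 4 := by positivity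
  have hH1 : 1 ≤ H := by nlinarith [mul_nonneg hpi.le hh00]
  have hHH : H₁ ≤ H := by
    have := Real.pi_gt_three
    have h5 : h₀ ≤ Real.pi * h₀ := by nlinarith
    linarith
  obtain ⟨θ₁, hθ₁0, hθ₁1, hWN⟩ := hWN H hHH
  obtain ⟨w, hw⟩ := hOM H hH1
  obtain ⟨-, -, -, -, hq0, hI2⟩ := hQH δ H Cw K w hδ0 (by linarith) hH1 hCw hK2 hw
  obtain ⟨h, hh⟩ : ∃ h, h = H / Real.pi := ⟨_, rfl⟩
  have hhH : H = h * Real.pi := by rw [hh]; field_simp
  have hhh : h₀ ≤ h := by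
    rw [hh, le_div_iff₀ hpi]
    nlinarith
  have hh0 : 0 < h := by rw [hh]; positivity
  have hq0' : |qh w 0 - h| ≤ 4 * Cw ^ 2 / 3 := by
    have e1 : Real.pi * qh w 0 - H = Real.pi * (qh w 0 - h) := by rw [hhH]; ring
    rw [e1, abs_mul, abs_of_pos hpi] at hq0
    have := Real.pi_gt_three
    have h2 := abs_nonneg (qh w 0 - h)
    nlinarith
  have hI2' : |I2 w - h| ≤ 4 * Cw ^ 4 / 3 := by
    have e1 : Real.pi * I2 w - H = Real.pi * (I2 w - h) := by rw [hhH]; ring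
    rw [e1, abs_mul, abs_of_pos hpi] at hI2
    have := Real.pi_gt_three
    have h2 := abs_nonneg (I2 w - h)
    nlinarith
  -- consequences of `h₀ ≤ h`
  have f1 : 4 * Cw ^ 2 ≤ e / 32 * h := by
    have : 32 / e * (4 * Cw ^ 2) ≤ h := by
      refine le_trans ?_ hhh
      rw [hh₀]
      have h1 : 0 ≤ 32 / e * (10000 * Cw ^ 4 * C₄ + 8 * Cw ^ 4) + H₁ := by positivity
      linarith
    have h2 := mul_le_mul_of_nonneg_left this (by positivity : 0 ≤ e / 32)
    have h3 : e / 32 * (32 / e * (4 * Cw ^ 2)) = 4 * Cw ^ 2 := by field_simp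
    linarith
  have f2 : 10000 * Cw ^ 4 * C₄ ≤ e / 32 * h := by
    have : 32 / e * (10000 * Cw ^ 4 * C₄) ≤ h := by
      refine le_trans ?_ hhh
      rw [hh₀]
      have h1 : 0 ≤ 32 / e * (4 * Cw ^ 2 + 8 * Cw ^ 4) + H₁ := by positivity
      linarith
    have h2 := mul_le_mul_of_nonneg_left this (by positivity : 0 ≤ e / 32)
    have h3 : e / 32 * (32 / e * (10000 * Cw ^ 4 * C₄)) = 10000 * Cw ^ 4 * C₄ := by field_simp
    linarith
  have f3 : 8 * Cw ^ 4 ≤ e / 32 * h := by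
    have : 32 / e * (8 * Cw ^ 4) ≤ h := by
      refine le_trans ?_ hhh
      rw [hh₀]
      have h1 : 0 ≤ 32 / e * (4 * Cw ^ 2 + 10000 * Cw ^ 4 * C₄) + H₁ := by positivity
      linarith
    have h2 := mul_le_mul_of_nonneg_left this (by positivity : 0 ≤ e / 32)
    have h3 : e / 32 * (32 / e * (8 * Cw ^ 4)) = 8 * Cw ^ 4 := by field_simp
    linarith
  have hI2up : I2 w ≤ 2 * h := by
    have := (abs_le.1 hI2').2
    nlinarith
  have hI20 : 0 ≤ I2 w := by
    have := (abs_le.1 hI2').1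
    nlinarith
  obtain ⟨θ, hθ⟩ : ∃ θ, θ = min (min (ϑ / 2) θ₁) (min ((1 - lam) / 4) (η ^ 2)) := ⟨_, rfl⟩
  have hθ0 : 0 < θ := by
    rw [hθ]
    have : 0 < 1 - lam := by linarith
    positivity
  have hθ1 : θ ≤ ϑ / 2 := by rw [hθ]; exact (min_le_left _ _).trans (min_le_left _ _)
  have hθ21 : θ ≤ θ₁ := by rw [hθ]; exact (min_le_left _ _).trans (min_le_right _ _)
  have hθ2 : θ ≤ 1 / 40 := hθ21.trans hθ₁1
  have hθ3 : θ ≤ (1 - lam) / 4 := by rw [hθ]; exact (min_le_right _ _).trans (min_le_left _ _)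
  have hθ4 : θ ≤ η ^ 2 := by rw [hθ]; exact (min_le_right _ _).trans (min_le_right _ _)
  refine ⟨d, θ, hd0, by linarith, hθ0, hθ2, ?_⟩
  have hsδ : Real.sqrt δ ≤ η := by
    rw [Real.sqrt_le_left hη0.le]; exact hδ5
  have hsθ : Real.sqrt θ ≤ η := by
    rw [Real.sqrt_le_left hη0.le]; exact hθ4
  have hη1 : η ≤ 1 / 64 := by
    rw [hη, div_le_div_iff₀ (by positivity) (by norm_num)]
    nlinarith
  have ePA := hPA δ H Cw K w θ (e / 32 * h) hδ0 hδ2 (by linarith) (by linarith) hH1 hCw hK2 hw hθ0 hθ2 (by positivity)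
  have eDE := hDE δ H Cw K w hδ0 (by linarith) hH1 hCw hK2 hw
  have eER := hER H hH1
  filter_upwards [ePA, hWN, eDE, eER, eventually_ge_atTop (16 : ℝ)] with T ePA hWN eDE eER hT16 N hN b
  have hT0 : 0 < T := by linarith
  have hT1 : 1 ≤ T := by linarith
  have hNϑ : (N : ℝ) ≤ T ^ (ϑ / 2) := hN.trans (Real.rpow_le_rpow_of_exponent_le hT1 hθ1)
  have hN1 : (N : ℝ) ≤ T ^ θ₁ := hN.trans (Real.rpow_le_rpow_of_exponent_le hT1 hθ21)
  replace ePA := ePA N hN b
  replace eER := eER N hNϑ b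
  have hAW := (hWN N hN1 b).2.2
  have hL0 : 0 ≤ Real.log T := Real.log_nonneg hT1
  have hL4 : 4 * Real.log T ≤ T := by
    have h5 := Real.log_le_sub_one_of_pos (show (0 : ℝ) < T / 16 by positivity)
    rw [Real.log_div (by positivity) (by norm_num)] at h5
    have h6 : Real.log 16 ≤ 3 := by
      have : Real.log 16 = 4 * Real.log 2 := by
        rw [show (16 : ℝ) = 2 ^ 4 by norm_num, Real.log_pow]; norm_num
      rw [this]; have := Real.log_two_lt_d9; linarith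
    linarith
  have hxy : T + 2 * Real.log T ≤ 2 * T - 2 * Real.log T := by linarith
  have hdpc : Continuous (dp N b) := by
    unfold dp
    refine continuous_finsetSum _ fun n hn => ?_
    refine continuous_const.mul ?_
    have hn0 : (n : ℂ) ≠ 0 := by
      have := (Finset.mem_Icc.1 hn).1
      exact_mod_cast (by omega : n ≠ 0)
    exact Continuous.const_cpow (by fun_prop) (Or.inl hn0)
  have hVc : Continuous (fun t : ℝ => ‖dp N b t‖ ^ 2) := (hdpc.norm).pow 2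
  have hRc : Continuous R := by
    have h1 : LipschitzWith (Real.toNNReal D) R := by
      refine LipschitzWith.of_dist_le_mul fun x y => ?_
      rw [Real.dist_eq, Real.dist_eq]
      refine (hD x y).trans ?_
      exact mul_le_mul_of_nonneg_right (Real.le_coe_toNNReal D) (abs_nonneg _)
    exact h1.continuous
  have g1 := core_iso hw hδ0 hH1 hRc hVc (fun t => by positivity) hxy eDE
  set A := ∫ t in (T + 2 * Real.log T)..(2 * T - 2 * Real.log T), Nw T (H / Real.log T) t * ‖dp N b t‖ ^ 2 with hA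
  set S := ∫ t in (T + 2 * Real.log T)..(2 * T - 2 * Real.log T), Niw d T (H / Real.log T) t * ‖dp N b t‖ ^ 2 with hS
  set E := ∫ t in (T + 2 * Real.log T)..(2 * T - 2 * Real.log T), ErrS δ H K T t * ‖dp N b t‖ ^ 2 with hE
  set P := 2 * ∫ α in (0 : ℝ)..1, R α * ∫ t in (T + 2 * Real.log T)..(2 * T - 2 * Real.log T),
        ‖Zt w T (lam * Real.log T * α) t‖ ^ 2 * ‖dp N b t‖ ^ 2 with hP
  obtain ⟨W, hW⟩ : ∃ W, W = T * N2 N b := ⟨_, rfl⟩
  have hW0 : 0 ≤ W := by rw [hW]; exact mul_nonneg hT0.le (N2_nonneg N b)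
  have eER' : 10000 * Cw ^ 4 * E ≤ e / 32 * h * W := by
    have h1 : 10000 * Cw ^ 4 * E ≤ 10000 * Cw ^ 4 * (C₄ * T * N2 N b) := mul_le_mul_of_nonneg_left eER (by positivity)
    have h2 : 10000 * Cw ^ 4 * (C₄ * T * N2 N b) = 10000 * Cw ^ 4 * C₄ * W := by rw [hW]; ring
    rw [h2] at h1
    exact h1.trans (mul_le_mul_of_nonneg_right f2 hW0)
  rw [← hh, ← hW] at hAW
  have hhW : 0 ≤ h * W := by positivity
  have hA2 : ηd * Cw ^ 2 * A ≤ e / 32 * h * W := by
    rw [hηdC]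
    have h1 := (abs_le.1 hAW).2
    have h2 : A ≤ 2 * (h * W) := by
      have h3 : e / 32 * h * W ≤ h * W := by
        have : e / 32 * h * W = e / 32 * (h * W) := by ring
        rw [this]
        nlinarith
      linarith
    calc e / 64 * A ≤ e / 64 * (2 * (h * W)) := by gcongr
      _ = e / 32 * h * W := by ring
  have hPW : P ≤ (H370.cMTinv + 6 * (e / 32)) * h * W := by
    have h1 := (abs_le.1 ePA).2
    have e1 : (R 0 / lam + 2 * lam * ∫ α in (0 : ℝ)..1, α * R α) * I2 w * T * N2 N b = H295SI.cR R lam * I2 w * W := by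
      rw [hW]; unfold H295SI.cR; ring
    have e2 : (C₁ * (Real.sqrt δ + Real.sqrt θ) * I2 w + e / 32 * h) * T * N2 N b =
        (C₁ * (Real.sqrt δ + Real.sqrt θ) * I2 w + e / 32 * h) * W := by rw [hW]; ring
    rw [e1, e2] at h1
    have h2 : C₁ * (Real.sqrt δ + Real.sqrt θ) * I2 w ≤ 2 * (e / 32) * h := by
      have h3 : C₁ * (Real.sqrt δ + Real.sqrt θ) ≤ e / 32 := by
        have : C₁ * (Real.sqrt δ + Real.sqrt θ) ≤ C₁ * (2 * η) :=
          mul_le_mul_of_nonneg_left (by linarith) (by linarith)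
        linarith
      calc C₁ * (Real.sqrt δ + Real.sqrt θ) * I2 w ≤ e / 32 * (2 * h) :=
            mul_le_mul h3 hI2up hI20 (by positivity)
        _ = _ := by ring
    have hcMT : H370.cMTinv < 3 / 2 := H370.cMTinv_lt
    have h4 : H295SI.cR R lam * I2 w ≤ (H370.cMTinv + e / 16) * h + e / 32 * h := by
      have h5 : H295SI.cR R lam * I2 w ≤ (H370.cMTinv + e / 16) * I2 w := mul_le_mul_of_nonneg_right hcR hI20
      have h6 : I2 w ≤ h + 4 * Cw ^ 4 / 3 := by linarith [(abs_le.1 hI2').2]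
      have h7 : 0 ≤ H370.cMTinv + e / 16 := by
        by_contra hneg
        push Not at hneg
        -- then `cR` would be negative although it is nonnegative
        have h8 : 0 ≤ H295SI.cR R lam := by
          unfold H295SI.cR
          have h9 : 0 ≤ ∫ α in (0 : ℝ)..1, α * R α :=
            intervalIntegral.integral_nonneg (by norm_num) fun α hα => mul_nonneg hα.1 (hR.nonneg α)
          have h10 := hR.nonneg 0
          positivity
        linarith
      have h8 : (H370.cMTinv + e / 16) * I2 w ≤ (H370.cMTinv + e / 16) * (h + 4 * Cw ^ 4 / 3) :=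
        mul_le_mul_of_nonneg_left h6 h7
      have h9 : (H370.cMTinv + e / 16) * (4 * Cw ^ 4 / 3) ≤ e / 32 * h := by
        have h10 : (H370.cMTinv + e / 16) * (4 * Cw ^ 4 / 3) ≤ 2 * (4 * Cw ^ 4 / 3) :=
          mul_le_mul_of_nonneg_right (by linarith) (by positivity)
        linarith
      linarith
    have h5 : P ≤ (H295SI.cR R lam * I2 w + (C₁ * (Real.sqrt δ + Real.sqrt θ) * I2 w + e / 32 * h)) * W := by
      linarith
    refine h5.trans ?_
    apply mul_le_mul_of_nonneg_right _ hW0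
    linarith
  have hkey : 0 ≤ e * h * W := by positivity
  have hkey2 : e * h * W ≤ ε₀ * h * W := by gcongr
  have hAl := abs_le.1 hAW
  rw [← hh, ← hW]
  linarith [hAl.1, hAl.2]

end Pool.Agent.Q148.UM
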