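import Pool.Agent.Q61.UM.SAMP
import Pool.Agent.Q222.UM.ERR
import Pool.Agent.Q178.UM.ZF2
import Pool.Agent.Q148.UM.WINI

set_option autoImplicit false

/-! Project UM5 (helper97), job SAMPI: from windows to the isolated zeros. -/

namespace Pool.Agent.Q148.UM

open Filter Topology MeasureTheory Complex
open Pool.Agent.Q97.UM
open Pool.Agent.Q61.UM (samp_cmp)

noncomputable section

open Classical in
/-- indicator of the isolated zeros -/
def wi (d T : ℝ) (s : ℂ) : ℝ := if s ∈ ZI d T then 1 else 0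

open Classical in
theorem cz_ge {t r T : ℝ} (hT : 1 ≤ T) :
    (((ZT T).filter (fun s => |s.im - t| ≤ r)).card : ℝ) ≤ cz t r (0 / Real.log T) := by
  have hF := H370.good_zeta
  have hZ := Pool.Agent.Q178.UM.ZF2.t_ZF2
  rw [Pool.Agent.Q222.UM.cz_eq hZ]
  have h1 : (((ZT T).filter (fun s => |s.im - t| ≤ r)).card : ℝ) =
      ∑ s ∈ (ZT T).filter (fun s => |s.im - t| ≤ r), (1 : ℝ) := by simp
  rw [h1]
  have hm : ∀ s ∈ (ZT T).filter (fun s => |s.im - t| ≤ r), s ∈ (hZ.1 t r).toFinset ∧ 1 ≤ mz s := by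
    intro s hs
    rw [Finset.mem_filter] at hs
    obtain ⟨hs1, hs2⟩ := hs
    unfold ZT at hs1
    rw [H370.mem_Zf hF (by linarith)] at hs1
    obtain ⟨a1, a2, a3, a4, a5⟩ := hs1
    refine ⟨?_, H370.Loc.mult_pos' hF (by linarith) a5⟩
    rw [Set.Finite.mem_toFinset]
    exact ⟨a5, a1, a2, hs2⟩
  have h2 : ∑ s ∈ (ZT T).filter (fun s => |s.im - t| ≤ r), (1 : ℝ) ≤
      ∑ s ∈ (ZT T).filter (fun s => |s.im - t| ≤ r),
        (if 0 / Real.log T ≤ |s.re - 1 / 2| then (analyticOrderNatAt riemannZeta s : ℝ) else 0) := by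
    refine Finset.sum_le_sum fun s hs => ?_
    rw [zero_div, if_pos (abs_nonneg _)]
    have := (hm s hs).2
    unfold mz at this
    exact_mod_cast this
  refine h2.trans (Finset.sum_le_sum_of_subset_of_nonneg (fun s hs => (hm s hs).1) fun s _ _ => ?_)
  split_ifs
  · exact Nat.cast_nonneg _
  · exact le_rfl

open Classical in
theorem Niw_le {d T H t : ℝ} (hT : 16 ≤ T) (hL2 : 2 ≤ Real.log T) (hH : 0 < H) (hLH : H ≤ Real.log T) (hd : d ≤ 1)
    (ht1 : T + 2 * Real.log T ≤ t) (ht2 : t ≤ 2 * T - 2 * Real.log T) :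
    Niw d T (H / Real.log T) t ≤ ∑ s ∈ (ZT T).filter (fun s => |s.im - t| ≤ H / Real.log T), wi d T s +
      (cz (t + H / Real.log T) (1 / Real.log T) (0 / Real.log T) +
        cz (t + -(H / Real.log T)) (1 / Real.log T) (0 / Real.log T)) := by
  have hF := H370.good_zeta
  set L := Real.log T with hL
  have hL0 : 0 < L := by linarith
  set r := H / L with hr
  have hr0 : 0 < r := by positivity
  have hr1 : r ≤ 1 := by rw [hr, div_le_one hL0]; exact hLH
  have hdL : d / L ≤ 1 / L := by gcongr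
  have h1L : 1 / L ≤ 1 := by rw [div_le_one hL0]; linarith
  have hsum : ∑ s ∈ (ZT T).filter (fun s => |s.im - t| ≤ r), wi d T s =
      (((ZT T).filter (fun s => |s.im - t| ≤ r ∧ s ∈ ZI d T)).card : ℝ) := by
    unfold wi
    rw [Finset.sum_boole, Finset.filter_filter]
  have hsub : (ZT T).filter (fun s => s.re = 1 / 2 ∧ mz s = 1 ∧ |s.im - t| ≤ r ∧
      ∀ s' ∈ ZT T, |s'.im - t| ≤ r → s' ≠ s → d / L ≤ ‖s - s'‖) ⊆
      (ZT T).filter (fun s => |s.im - t| ≤ r ∧ s ∈ ZI d T) ∪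
      ((ZT T).filter (fun s => |s.im - (t + r)| ≤ 1 / L) ∪ (ZT T).filter (fun s => |s.im - (t + -r)| ≤ 1 / L)) := by
    intro s hs
    rw [Finset.mem_filter] at hs
    obtain ⟨hs0, hs1, hs2, hs3, hs4⟩ := hs
    simp only [Finset.mem_union, Finset.mem_filter]
    by_cases hI : s ∈ ZI d T
    · exact Or.inl ⟨hs0, hs3, hI⟩
    · right
      have hsF : s ∈ H370.Zf riemannZeta T (2 * T) := by
        unfold ZT at hs0
        rw [H370.mem_Zf hF (by linarith)] at hs0 ⊢
        obtain ⟨a1, a2, a3, a4, a5⟩ := hs0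
        exact ⟨a1, a2, by linarith, by linarith, a5⟩
      have h1 : ∃ s' ∈ ZD T, s' ≠ s ∧ ‖s - s'‖ < d / L := by
        by_contra hcon
        push Not at hcon
        apply hI
        unfold ZI
        rw [Finset.mem_filter]
        exact ⟨hsF, hs1, hs2, fun s' h2 h3 => hcon s' h2 h3⟩
      obtain ⟨s', hs', hne, hlt⟩ := h1
      have him : |s.im - s'.im| < 1 / L := by
        have h2 := Complex.abs_im_le_norm (s - s')
        rw [Complex.sub_im] at h2
        linarith
      have hil := abs_lt.1 him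
      have h3l := abs_le.1 hs3
      have hZT' : s' ∈ ZT T := by
        unfold ZD at hs'
        unfold ZT
        rw [H370.mem_Zf hF (by linarith)] at hs' ⊢
        obtain ⟨a1, a2, a3, a4, a5⟩ := hs'
        exact ⟨a1, a2, by linarith, by linarith, a5⟩
      have hout : r < |s'.im - t| := by
        by_contra hcon
        push Not at hcon
        exact absurd (hs4 s' hZT' hcon hne) (not_le.2 hlt)
      rcases lt_abs.1 hout with h5 | h5
      · left
        refine ⟨hs0, ?_⟩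
        rw [abs_le]
        constructor <;> linarith [hil.1, hil.2, h3l.1, h3l.2]
      · right
        refine ⟨hs0, ?_⟩
        rw [abs_le]
        constructor <;> linarith [hil.1, hil.2, h3l.1, h3l.2]
  have hc1 := cz_ge (t := t + r) (r := 1 / L) (T := T) (by linarith)
  have hc2 := cz_ge (t := t + -r) (r := 1 / L) (T := T) (by linarith)
  have hcard := (Finset.card_le_card hsub).trans ((Finset.card_union_le _ _).trans
    (Nat.add_le_add_left (Finset.card_union_le _ _) _))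
  have hcard' : ((((ZT T).filter (fun s => s.re = 1 / 2 ∧ mz s = 1 ∧ |s.im - t| ≤ r ∧
      ∀ s' ∈ ZT T, |s'.im - t| ≤ r → s' ≠ s → d / L ≤ ‖s - s'‖)).card : ℕ) : ℝ) ≤
      (((ZT T).filter (fun s => |s.im - t| ≤ r ∧ s ∈ ZI d T)).card : ℝ) +
      ((((ZT T).filter (fun s => |s.im - (t + r)| ≤ 1 / L)).card : ℝ) +
        (((ZT T).filter (fun s => |s.im - (t + -r)| ≤ 1 / L)).card : ℝ)) := by
    exact_mod_cast hcard
  rw [hsum]
  unfold Niw
  refine hcard'.trans ?_
  gcongr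

/-- the final arithmetic -/
theorem fin_ar {cM ε H L S X Y J B1 B2 C₂ : ℝ} (hε : 0 < ε) (hH : 0 < H) (hL0 : 0 < L) (hS0 : 0 ≤ S) (hC₂ : 0 ≤ C₂)
    (hHc : 32 * C₂ / ε ≤ H) (h1 : X - 2 * (H / L) * Y ≤ 2 * (H / L) * (ε / 16 * L * S))
    (w1 : (2 - cM - ε / 4) * (H / Real.pi) * S ≤ J) (hJ : J ≤ X + (B1 + B2)) (hb1 : B1 ≤ C₂ * S) (hb2 : B2 ≤ C₂ * S) :
    (2 - cM - ε) * (L / (2 * Real.pi)) * S ≤ Y := by
  have hπ : 3 < Real.pi := Real.pi_gt_three
  have hπ4 : Real.pi < 4 := Real.pi_lt_four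
  have h2 : (2 - cM - ε / 4) * (H / Real.pi) * S ≤ X + 2 * (C₂ * S) := by linarith
  have h3 : 2 * (C₂ * S) ≤ ε / 4 * (H / Real.pi) * S := by
    have h4 : 2 * C₂ ≤ ε / 4 * (H / Real.pi) := by
      rw [← mul_div_assoc, le_div_iff₀ (by positivity)]
      rw [div_le_iff₀ hε] at hHc
      have h11 : 2 * C₂ * Real.pi ≤ 2 * C₂ * 4 := mul_le_mul_of_nonneg_left hπ4.le (by positivity)
      linarith
    calc 2 * (C₂ * S) = 2 * C₂ * S := by ring
      _ ≤ ε / 4 * (H / Real.pi) * S := mul_le_mul_of_nonneg_right h4 hS0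
  have h5 : (2 - cM - ε / 2) * (H / Real.pi) * S ≤ 2 * (H / L) * (Y + ε / 16 * L * S) := by
    have : (2 - cM - ε / 2) * (H / Real.pi) * S =
      (2 - cM - ε / 4) * (H / Real.pi) * S - ε / 4 * (H / Real.pi) * S := by ring
    rw [this]
    linarith
  have h6 : (2 - cM - ε / 2) * (L / (2 * Real.pi)) * S ≤ Y + ε / 16 * L * S := by
    have h7 := mul_le_mul_of_nonneg_left h5 (by positivity : 0 ≤ L / (2 * H))
    have e1 : L / (2 * H) * ((2 - cM - ε / 2) * (H / Real.pi) * S) =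
        (2 - cM - ε / 2) * (L / (2 * Real.pi)) * S := by field_simp
    have e2 : L / (2 * H) * (2 * (H / L) * (Y + ε / 16 * L * S)) = Y + ε / 16 * L * S := by field_simp
    rw [e1, e2] at h7
    exact h7
  have h8 : ε / 16 * L * S ≤ ε / 2 * (L / (2 * Real.pi)) * S := by
    have h9 : ε / 16 ≤ ε / 2 / (2 * Real.pi) := by
      rw [le_div_iff₀ (by positivity)]
      have h11 : ε * Real.pi ≤ ε * 4 := mul_le_mul_of_nonneg_left hπ4.le hε.le
      linarith
    calc ε / 16 * L * S = ε / 16 * (L * S) := by ring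
      _ ≤ ε / 2 / (2 * Real.pi) * (L * S) := mul_le_mul_of_nonneg_right h9 (by positivity)
      _ = ε / 2 * (L / (2 * Real.pi)) * S := by ring
  have h10 : (2 - cM - ε) * (L / (2 * Real.pi)) * S = (2 - cM - ε / 2) * (L / (2 * Real.pi)) * S -
      ε / 2 * (L / (2 * Real.pi)) * S := by ring
  rw [h10]
  linarith

open Classical in
theorem sum_ZI (d T : ℝ) (f : ℝ → ℝ) : ∑ s ∈ H370.Zf riemannZeta T (2 * T), wi d T s * f s.im = ∑ s ∈ ZI d T, f s.im := by
  have hsub : ZI d T ⊆ H370.Zf riemannZeta T (2 * T) := by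
    unfold ZI
    exact Finset.filter_subset _ _
  rw [← Finset.sum_subset hsub (f := fun s => wi d T s * f s.im)]
  · refine Finset.sum_congr rfl fun s hs => ?_
    unfold wi
    rw [if_pos hs, one_mul]
  · intro s _ hs
    unfold wi
    rw [if_neg hs, zero_mul]

open Classical in
theorem ii_ws (T r : ℝ) (ω : ℂ → ℝ) {V : ℝ → ℝ} (hV : Continuous V) (x y : ℝ) :
    IntervalIntegrable (fun t => (∑ s ∈ (ZT T).filter (fun s => |s.im - t| ≤ r), ω s) * V t) volume x y := by
  have h := sum_filter_meas (ZT T) (fun s t => |s.im - t| ≤ r) (fun s => meas_near s _) ω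
  exact ii_mul h.1 h.2 hV x y

open Classical in
theorem t_SAMPI : J_SAMPI := by
  intro hD _ _ hEDB hWIN hWINI ε hε
  have hF := H370.good_zeta
  have hZ := Pool.Agent.Q178.UM.ZF2.t_ZF2
  obtain ⟨C, hC, hcnt⟩ := H370.zcount hF
  obtain ⟨θE, c, C₂, hθE0, hθE1, hc, hC₂, hE⟩ := hEDB
  obtain ⟨H₁, hH1, hWIN⟩ := hWIN 1 one_pos
  obtain ⟨H₂, hH2, hWI⟩ := hWINI (ε / 4) (by positivity)
  have hπ : 3 < Real.pi := Real.pi_gt_three
  have hπ4 : Real.pi < 4 := Real.pi_lt_four
  obtain ⟨H, hHdef⟩ : ∃ H : ℝ, H = max (max H₁ H₂) (32 * C₂ / ε) := ⟨_, rfl⟩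
  have hHa : H₁ ≤ H := by rw [hHdef]; exact (le_max_left _ _).trans (le_max_left _ _)
  have hHb : H₂ ≤ H := by rw [hHdef]; exact (le_max_right _ _).trans (le_max_left _ _)
  have hHc : 32 * C₂ / ε ≤ H := by rw [hHdef]; exact le_max_right _ _
  have hH : 0 < H := by linarith
  obtain ⟨θ₁, hθ₁0, hθ₁1, hev1⟩ := hWIN H hHa
  obtain ⟨d, θ₂, hd0, hd1, hθ₂0, hθ₂1, hev2⟩ := hWI H hHb
  obtain ⟨θ, hθ⟩ : ∃ θ : ℝ, θ = min (min θ₁ θ₂) (min θE (ε / (128 * H))) := ⟨_, rfl⟩
  have hθ0 : 0 < θ := by rw [hθ]; positivity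
  have hθa : θ ≤ θ₁ := by rw [hθ]; exact (min_le_left _ _).trans (min_le_left _ _)
  have hθb : θ ≤ θ₂ := by rw [hθ]; exact (min_le_left _ _).trans (min_le_right _ _)
  have hθc : θ ≤ θE := by rw [hθ]; exact (min_le_right _ _).trans (min_le_left _ _)
  have hθ40 : θ ≤ 1 / 40 := hθa.trans hθ₁1
  have hθH : θ * (128 * H) ≤ ε := by
    have : θ ≤ ε / (128 * H) := by rw [hθ]; exact (min_le_right _ _).trans (min_le_right _ _)
    rw [le_div_iff₀ (by positivity)] at this
    exact this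
  refine ⟨d, θ, hd0, hd1, hθ0, hθ40, ?_⟩
  have hlog : ∀ᶠ T : ℝ in atTop, 12 * C * Real.log T ≤ ε / 32 * T ^ (39 / 40 : ℝ) := by
    have h1 := isLittleO_log_rpow_atTop (show (0 : ℝ) < 39 / 40 by norm_num)
    have h2 := h1.bound (show 0 < ε / 32 / (12 * C) by positivity)
    filter_upwards [h2, eventually_ge_atTop (1 : ℝ)] with T h hT
    rw [Real.norm_eq_abs, Real.norm_eq_abs, abs_of_nonneg (Real.log_nonneg hT), abs_of_nonneg (by positivity)] at h
    have h3 : 12 * C * Real.log T ≤ 12 * C * (ε / 32 / (12 * C) * T ^ (39 / 40 : ℝ)) := by gcongr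
    refine h3.trans (le_of_eq ?_)
    field_simp
  have hlog2 : ∀ᶠ T : ℝ in atTop, 8 * Real.log T ≤ T := by
    have h2 := (Real.isLittleO_log_id_atTop).bound (show (0 : ℝ) < 1 / 8 by norm_num)
    filter_upwards [h2, eventually_ge_atTop (1 : ℝ)] with T h hT
    simp only [id] at h
    rw [Real.norm_eq_abs, Real.norm_eq_abs, abs_of_nonneg (Real.log_nonneg hT), abs_of_nonneg (by positivity)] at h
    linarith
  filter_upwards [hev1, hev2, hE, hlog, hlog2, eventually_ge_atTop (16 : ℝ), Real.tendsto_log_atTop.eventually_ge_atTop 2,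
    Real.tendsto_log_atTop.eventually_ge_atTop H] with T hev1 hev2 hE hlog hLT hT hL2 hLH
  intro N hN b
  have hT0 : 0 < T := by linarith
  have hT1 : 1 ≤ T := by linarith
  have hN1 : (N : ℝ) ≤ T ^ θ₁ := hN.trans (Real.rpow_le_rpow_of_exponent_le hT1 hθa)
  have hN2 : (N : ℝ) ≤ T ^ θ₂ := hN.trans (Real.rpow_le_rpow_of_exponent_le hT1 hθb)
  have hN3 : (N : ℝ) ≤ T ^ θE := hN.trans (Real.rpow_le_rpow_of_exponent_le hT1 hθc)
  have hout : 12 * C * Real.log T * T ^ (1 / 40 : ℝ) ≤ ε / 32 * T := by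
    calc 12 * C * Real.log T * T ^ (1 / 40 : ℝ) ≤ ε / 32 * T ^ (39 / 40 : ℝ) * T ^ (1 / 40 : ℝ) := by gcongr
      _ = ε / 32 * (T ^ (39 / 40 : ℝ) * T ^ (1 / 40 : ℝ)) := by ring
      _ = ε / 32 * T := by
          rw [← Real.rpow_add hT0]
          norm_num
  have hW : ∀ b : ℕ → ℂ, |(∫ t in (T + 2 * Real.log T)..(2 * T - 2 * Real.log T), Nw T (H / Real.log T) t * ‖dp N b t‖ ^ 2) -
      (H / Real.pi) * (T * N2 N b)| ≤ 1 * (H / Real.pi) * (T * N2 N b) := fun b => (hev1 N hN1 b).2.2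
  have hN2b := N2_nonneg N b
  have w1 := hev2 N hN2 b
  have hmz : ∀ s ∈ H370.Zf riemannZeta T (2 * T), (1 : ℝ) ≤ mz s := by
    intro s hs
    rw [H370.mem_Zf hF (by linarith)] at hs
    have := H370.Loc.mult_pos' hF (show 0 < s.im by linarith [hs.2.2.1]) hs.2.2.2.2
    exact_mod_cast this
  have h0 := samp_cmp hD hε hC hcnt hθ0 hθ40 hH hθH (by linarith) (by linarith) hLH (by linarith) hout hN b hW (ω := wi d T)
      (fun s _ => by unfold wi; split_ifs <;> norm_num)
      (fun s hs => by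
        have := hmz s hs
        unfold wi
        split_ifs
        · exact this
        · linarith)
  -- the boundary terms
  have hrT : H / Real.log T ≤ 1 := by rw [div_le_one (by linarith)]; exact hLH
  have hr0 : 0 < H / Real.log T := by
    have : 0 < Real.log T := by linarith
    positivity
  have hdpc : Continuous (dp N b) := (hD.2.2 N b 0).2
  have hVc : Continuous (fun t : ℝ => ‖dp N b t‖ ^ 2) := (hdpc.norm).pow 2
  have bdry : ∀ X : ℝ, |X| ≤ 1 →
      ∫ t in (T + 2 * Real.log T)..(2 * T - 2 * Real.log T), cz (t + X) (1 / Real.log T) (0 / Real.log T) * ‖dp N b t‖ ^ 2 ≤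
        C₂ * (T * N2 N b) := by
    intro X hX
    have h1 := hE N hN3 b X 0 (by linarith) le_rfl
    rw [mul_zero, neg_zero, Real.exp_zero, mul_one] at h1
    have h2 : ∫ t in (T + 2 * Real.log T)..(2 * T - 2 * Real.log T), cz (t + X) (1 / Real.log T) (0 / Real.log T) * ‖dp N b t‖ ^ 2 ≤
        ∫ t in T..(2 * T), cz (t + X) (1 / Real.log T) (0 / Real.log T) * ‖dp N b t‖ ^ 2 := by
      refine intervalIntegral.integral_mono_interval (by linarith) (by linarith) (by linarith)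
        (Eventually.of_forall fun t => ?_) ?_
      · exact mul_nonneg (Pool.Agent.Q222.UM.cz_nonneg hZ _ _ _) (by positivity)
      · exact Pool.Agent.Q222.UM.cz_int hZ X _ _ (by linarith) hVc (fun s => by positivity)
    linarith
  have hb1 := bdry (H / Real.log T) (by rw [abs_of_pos hr0]; exact hrT)
  have hb2 := bdry (-(H / Real.log T)) (by rw [abs_neg, abs_of_pos hr0]; exact hrT)
  -- the integrated pointwise inequality
  have iS : IntervalIntegrable (fun t => (∑ s ∈ (ZT T).filter (fun s => |s.im - t| ≤ H / Real.log T), wi d T s) * ‖dp N b t‖ ^ 2)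
      volume (T + 2 * Real.log T) (2 * T - 2 * Real.log T) := ii_ws T _ (wi d T) hVc _ _
  have iN : IntervalIntegrable (fun t => Niw d T (H / Real.log T) t * ‖dp N b t‖ ^ 2)
      volume (T + 2 * Real.log T) (2 * T - 2 * Real.log T) := by
    obtain ⟨mS, B2, bS⟩ := Niw_meas d T (H / Real.log T)
    exact ii_mul mS bS hVc _ _
  have ic1 := Pool.Agent.Q222.UM.cz_int hZ (H / Real.log T) (1 / Real.log T) (0 / Real.log T)
    (show T + 2 * Real.log T ≤ 2 * T - 2 * Real.log T by linarith) hVc (fun s => by positivity)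
  have ic2 := Pool.Agent.Q222.UM.cz_int hZ (-(H / Real.log T)) (1 / Real.log T) (0 / Real.log T)
    (show T + 2 * Real.log T ≤ 2 * T - 2 * Real.log T by linarith) hVc (fun s => by positivity)
  have hint : ∫ t in (T + 2 * Real.log T)..(2 * T - 2 * Real.log T), Niw d T (H / Real.log T) t * ‖dp N b t‖ ^ 2 ≤
      (∫ t in (T + 2 * Real.log T)..(2 * T - 2 * Real.log T),
        (∑ s ∈ (ZT T).filter (fun s => |s.im - t| ≤ H / Real.log T), wi d T s) * ‖dp N b t‖ ^ 2) +
      ((∫ t in (T + 2 * Real.log T)..(2 * T - 2 * Real.log T),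
          cz (t + H / Real.log T) (1 / Real.log T) (0 / Real.log T) * ‖dp N b t‖ ^ 2) +
        ∫ t in (T + 2 * Real.log T)..(2 * T - 2 * Real.log T),
          cz (t + -(H / Real.log T)) (1 / Real.log T) (0 / Real.log T) * ‖dp N b t‖ ^ 2) := by
    rw [← intervalIntegral.integral_add ic1 ic2, ← intervalIntegral.integral_add iS (ic1.add ic2)]
    refine intervalIntegral.integral_mono_on (by linarith) iN (iS.add (ic1.add ic2)) fun t ht => ?_
    have h1 := Niw_le (d := d) (T := T) (H := H) (t := t) (by linarith) hL2 hH hLH hd1 ht.1 ht.2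
    have h2 := mul_le_mul_of_nonneg_right h1 (by positivity : 0 ≤ ‖dp N b t‖ ^ 2)
    refine h2.trans (le_of_eq ?_)
    ring
  rw [sum_ZI d T (fun x => ‖dp N b x‖ ^ 2)] at h0
  exact fin_ar hε hH (by linarith) (by positivity) hC₂ hHc (abs_le.1 h0).2 w1 hint hb1 hb2

end

end Pool.Agent.Q148.UM
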