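import Pool.Agent.Q148.UM.UBDa

set_option autoImplicit false

/-! Project UM8 (helper97), job UBD: upper bound for the moments of `ζ'` at the critical zeros, relative to every Dirichlet polynomial. -/

namespace Pool.Agent.Q148.UM

open Filter Topology MeasureTheory Complex
open Pool.Agent.Q97.UM Pool.Agent.Q148.UM.D

noncomputable section

open Classical in
/-- the summation for fixed `T` and `b` -/
theorem ubd_core {lam κ T δ' W CP K1 K2 K3 ε D : ℝ} {N m' : ℕ} {b : ℕ → ℂ} (hT : 16 ≤ T) (hL1 : 1 ≤ Real.log T)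
    (hδ' : 0 ≤ δ') (hCP : 1 ≤ CP) (hW : 0 ≤ W) (hK3 : 0 ≤ K3) (hK1 : 0 ≤ K1) (hK2 : 0 ≤ K2)
    (hP : ∀ (D t X n : ℝ), 0 ≤ X → 1 ≤ n → X ^ (2 * lam) ≤ CP * ∑ q ∈ Finset.range (JB D + 1),
      (n ^ m' * ‖Ef D κ (fun _ => (lam : ℂ)) (fun _ => (lam : ℂ)) q t * pw D κ (fun _ => 1) (fun _ => 1) q t‖ ^ 2 +
        n⁻¹ * X ^ 2 * ‖Ef D κ (fun _ => (lam : ℂ) - 1) (fun _ => (lam : ℂ) - 1) q t * pw D κ (fun _ => 1) (fun _ => 1) q t‖ ^ 2))
    (h1 : ∀ q : ℕ, q ≤ JB D → ∑ s ∈ H370.Zf riemannZeta T (2 * T), (mz s : ℝ) * (SS δ' T s.im ^ m' *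
      ‖Ef D κ (fun _ => (lam : ℂ)) (fun _ => (lam : ℂ)) q s.im * pw D κ (fun _ => 1) (fun _ => 1) q s.im * dp N b s.im‖ ^ 2) ≤
        K1 * Real.exp (-(2 * (q : ℝ))) * (Real.log T * T * W))
    (h2 : ∀ q : ℕ, q ≤ JB D → ∑ s ∈ (H370.Zf riemannZeta T (2 * T)).filter (fun s => s.re = 1 / 2), (n2 T s.im)⁻¹ *
      (‖deriv riemannZeta s‖ ^ 2 * ‖Ef D κ (fun _ => (lam : ℂ) - 1) (fun _ => (lam : ℂ) - 1) q s.im *
        pw D κ (fun _ => 1) (fun _ => 1) q s.im * dp N b s.im‖ ^ 2) ≤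
        Real.log T ^ 2 * (Real.log T * T * W) * (K2 * Real.exp (-(2 * (q : ℝ))) + K3 * ε))
    (hε : ((JB D : ℝ) + 1) * ε ≤ 1) :
    ∑ s ∈ (H370.Zf riemannZeta T (2 * T)).filter (fun s => s.re = 1 / 2), ‖deriv riemannZeta s‖ ^ (2 * lam) * ‖dp N b s.im‖ ^ 2 ≤
      CP * (9 ^ m' * K1 * 2 + K2 * 2 + K3) * Real.log T ^ (2 * lam) * (Real.log T * T * W) := by
  have hL0 : 0 < Real.log T := by linarith
  set L := Real.log T with hL
  set Zc := (H370.Zf riemannZeta T (2 * T)).filter (fun s => s.re = 1 / 2) with hZc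
  obtain ⟨G, hG⟩ : ∃ G : ℝ, G = L * T * W := ⟨_, rfl⟩
  have hG0 : 0 ≤ G := by rw [hG]; positivity
  rw [← hG] at h1 h2 ⊢
  set E1 : ℕ → ℂ → ℝ := fun q s => ‖Ef D κ (fun _ => (lam : ℂ)) (fun _ => (lam : ℂ)) q s.im *
    pw D κ (fun _ => 1) (fun _ => 1) q s.im * dp N b s.im‖ ^ 2 with hE1
  set E2 : ℕ → ℂ → ℝ := fun q s => ‖Ef D κ (fun _ => (lam : ℂ) - 1) (fun _ => (lam : ℂ) - 1) q s.im *
    pw D κ (fun _ => 1) (fun _ => 1) q s.im * dp N b s.im‖ ^ 2 with hE2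
  -- pointwise
  have pt : ∀ s ∈ Zc, ‖deriv riemannZeta s‖ ^ (2 * lam) * ‖dp N b s.im‖ ^ 2 ≤
      L ^ (2 * lam) * (CP * ∑ q ∈ Finset.range (JB D + 1), (n2 T s.im ^ m' * E1 q s +
        (n2 T s.im)⁻¹ * (‖deriv riemannZeta s‖ ^ 2 / L ^ 2) * E2 q s)) := by
    intro s hs
    rw [hZc, Finset.mem_filter] at hs
    have hn := n2_ge hT hs.1
    have h3 := hP D s.im (‖deriv riemannZeta s‖ / L) (n2 T s.im) (by positivity) hn
    have e1 : ‖deriv riemannZeta s‖ ^ (2 * lam) = L ^ (2 * lam) * (‖deriv riemannZeta s‖ / L) ^ (2 * lam) := by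
      rw [← Real.mul_rpow hL0.le (by positivity)]
      congr 1
      field_simp
    rw [e1, mul_assoc]
    refine mul_le_mul_of_nonneg_left ?_ (Real.rpow_nonneg hL0.le _)
    refine (mul_le_mul_of_nonneg_right h3 (by positivity : 0 ≤ ‖dp N b s.im‖ ^ 2)).trans (le_of_eq ?_)
    rw [mul_assoc, Finset.sum_mul]
    congr 1
    refine Finset.sum_congr rfl fun q _ => ?_
    simp only [hE1, hE2]
    rw [norm_mul (_ * _) (dp N b s.im), norm_mul (_ * _) (dp N b s.im), mul_pow, mul_pow, div_pow]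
    ring
  refine (Finset.sum_le_sum pt).trans ?_
  rw [← Finset.mul_sum, ← Finset.mul_sum, Finset.sum_comm]
  have hq : ∀ q ∈ Finset.range (JB D + 1), ∑ s ∈ Zc, (n2 T s.im ^ m' * E1 q s +
        (n2 T s.im)⁻¹ * (‖deriv riemannZeta s‖ ^ 2 / L ^ 2) * E2 q s) ≤
      (9 ^ m' * K1 * Real.exp (-(2 * (q : ℝ))) + (K2 * Real.exp (-(2 * (q : ℝ))) + K3 * ε)) * G := by
    intro q hq
    have hqJ : q ≤ JB D := by
      have := Finset.mem_range.1 hq
      omega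
    rw [Finset.sum_add_distrib, add_mul]
    refine add_le_add ?_ ?_
    · have h3 : ∑ s ∈ Zc, n2 T s.im ^ m' * E1 q s ≤ 9 ^ m' * ∑ s ∈ H370.Zf riemannZeta T (2 * T), (mz s : ℝ) * (SS δ' T s.im ^ m' * E1 q s) := by
        rw [Finset.mul_sum]
        have h4 : ∀ s ∈ H370.Zf riemannZeta T (2 * T), (1 : ℝ) ≤ mz s := by
          intro s hs
          rw [H370.mem_Zf H370.good_zeta (by linarith)] at hs
          have := H370.Loc.mult_pos' H370.good_zeta (show 0 < s.im by linarith [hs.2.2.1]) hs.2.2.2.2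
          exact_mod_cast this
        have hSS : ∀ t, 0 ≤ SS δ' T t := fun t => by
          unfold SS
          exact Finset.sum_nonneg fun s _ => by positivity
        have hE10 : ∀ s, 0 ≤ E1 q s := fun s => by simp only [hE1]; positivity
        refine le_trans ?_ (Finset.sum_le_sum_of_subset_of_nonneg (Finset.filter_subset (fun s : ℂ => s.re = 1 / 2) _) fun s hs _ => ?_)
        · refine Finset.sum_le_sum fun s hs => ?_
          rw [hZc, Finset.mem_filter] at hs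
          have h5 := n2_ge hT hs.1
          have h6 := n2_le (T := T) (t := s.im) (by linarith) hδ'
          have h7 : n2 T s.im ^ m' ≤ (9 * SS δ' T s.im) ^ m' := pow_le_pow_left₀ (by linarith) h6 m'
          rw [mul_pow] at h7
          have h8 := h4 s hs.1
          have h9 : 0 ≤ SS δ' T s.im ^ m' * E1 q s := mul_nonneg (pow_nonneg (hSS _) _) (hE10 s)
          calc n2 T s.im ^ m' * E1 q s ≤ 9 ^ m' * SS δ' T s.im ^ m' * E1 q s := mul_le_mul_of_nonneg_right h7 (hE10 s)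
            _ = 9 ^ m' * (1 * (SS δ' T s.im ^ m' * E1 q s)) := by ring
            _ ≤ 9 ^ m' * ((mz s : ℝ) * (SS δ' T s.im ^ m' * E1 q s)) :=
              mul_le_mul_of_nonneg_left (mul_le_mul_of_nonneg_right h8 h9) (by positivity)
        · exact mul_nonneg (by positivity) (mul_nonneg (Nat.cast_nonneg _) (mul_nonneg (pow_nonneg (hSS _) _) (hE10 s)))
      have h10 := mul_le_mul_of_nonneg_left (h1 q hqJ) (by positivity : (0 : ℝ) ≤ 9 ^ m')
      refine h3.trans (h10.trans (le_of_eq ?_))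
      ring
    · have h3 : ∑ s ∈ Zc, (n2 T s.im)⁻¹ * (‖deriv riemannZeta s‖ ^ 2 / L ^ 2) * E2 q s =
          1 / L ^ 2 * ∑ s ∈ Zc, (n2 T s.im)⁻¹ * (‖deriv riemannZeta s‖ ^ 2 * E2 q s) := by
        rw [Finset.mul_sum]
        exact Finset.sum_congr rfl fun s _ => by ring
      rw [h3]
      refine (mul_le_mul_of_nonneg_left (h2 q hqJ) (by positivity)).trans (le_of_eq ?_)
      field_simp
  have hsum := Finset.sum_le_sum hq
  rw [← Finset.sum_mul, Finset.sum_add_distrib, Finset.sum_add_distrib, ← Finset.mul_sum, ← Finset.mul_sum, Finset.sum_const,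
    Finset.card_range, nsmul_eq_mul] at hsum
  have hg := geo_sum (JB D + 1)
  have h5 : 9 ^ m' * K1 * ∑ q ∈ Finset.range (JB D + 1), Real.exp (-(2 * (q : ℝ))) ≤ 9 ^ m' * K1 * 2 :=
    mul_le_mul_of_nonneg_left hg (by positivity)
  have h6 : K2 * ∑ q ∈ Finset.range (JB D + 1), Real.exp (-(2 * (q : ℝ))) ≤ K2 * 2 := mul_le_mul_of_nonneg_left hg hK2
  have h7 : ((JB D + 1 : ℕ) : ℝ) * (K3 * ε) ≤ K3 := by
    push_cast
    calc ((JB D : ℝ) + 1) * (K3 * ε) = K3 * (((JB D : ℝ) + 1) * ε) := by ring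
      _ ≤ K3 * 1 := mul_le_mul_of_nonneg_left hε hK3
      _ = K3 := mul_one _
  have h8 : ∑ q ∈ Finset.range (JB D + 1), ∑ s ∈ Zc, (n2 T s.im ^ m' * E1 q s +
        (n2 T s.im)⁻¹ * (‖deriv riemannZeta s‖ ^ 2 / L ^ 2) * E2 q s) ≤ (9 ^ m' * K1 * 2 + K2 * 2 + K3) * G := by
    refine hsum.trans (mul_le_mul_of_nonneg_right ?_ hG0)
    linarith
  calc L ^ (2 * lam) * (CP * ∑ q ∈ Finset.range (JB D + 1), ∑ s ∈ Zc, (n2 T s.im ^ m' * E1 q s +
        (n2 T s.im)⁻¹ * (‖deriv riemannZeta s‖ ^ 2 / L ^ 2) * E2 q s)) ≤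
        L ^ (2 * lam) * (CP * ((9 ^ m' * K1 * 2 + K2 * 2 + K3) * G)) := by
        have := Real.rpow_nonneg hL0.le (2 * lam)
        gcongr
    _ = CP * (9 ^ m' * K1 * 2 + K2 * 2 + K3) * L ^ (2 * lam) * G := by ring

theorem lc_one (x : ℝ) : lc (fun _ : Fin 1 => x) (fun _ _ => (1 : ℂ)) = fun _ => (x : ℂ) := by
  funext n
  simp [lc]

theorem fam_one {x : ℝ} (h0 : 0 ≤ x) (h1 : x ≤ 1) : FamD (fun _ : Fin 1 => x) (fun _ _ => (1 : ℂ)) (fun _ _ => (1 : ℂ)) where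
  nn := fun _ => h0
  sm := by simpa using h1
  b1 := fun _ _ => by simp
  b2 := fun _ _ => by simp

open Classical in
theorem t_UBD : J_UBD := by
  intro hP2 hTOR hCOF hTSC hBLS hSTM hDSC hDPM hMVL hTail lam hl0 hl1
  obtain ⟨κ₁, hκ₁, hTOR⟩ := hTOR 1
  refine ⟨κ₁, hκ₁, fun κ hκ => ?_⟩
  have hκ4 : 4 ≤ κ := hκ₁.trans hκ
  obtain ⟨CT, hCT, hTOR⟩ := hTOR κ hκ
  obtain ⟨m', hm'⟩ := exists_nat_ge (lam / (1 - lam))
  obtain ⟨CP, hCP, hP⟩ := pt2_two hP2 hl0 hl1 hκ4 hm'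
  obtain ⟨θ₀, hθ₀, hθ₀8, hTSC⟩ := hTSC
  obtain ⟨CB, hCB, hBLS⟩ := hBLS
  obtain ⟨θB, cB, CB', hθB, hθB4, hcB, hCB', hTail⟩ := hTail
  obtain ⟨δ', hδ'⟩ : ∃ δ' : ℝ, δ' = cB / (16 * (m' + 2)) := ⟨_, rfl⟩
  have hδ'0 : 0 < δ' := by rw [hδ']; positivity
  obtain ⟨C₁, hC₁, hS⟩ := hSTM θB cB CB' hθB hθB4 hcB hCB' hTail (m' + 1) δ' hδ'0 (by
    rw [hδ']
    push_cast
    apply le_of_eq
    field_simp
    ring)
  obtain ⟨C₂, hC₂, hD⟩ := hDSC (θB / 2) δ' m' C₁ (by positivity) (by linarith) hδ'0 hC₁ hS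
  obtain ⟨θm, hθm⟩ : ∃ θm : ℝ, θm = min (min θ₀ (θB / 2)) (1 / 16) := ⟨_, rfl⟩
  have hθm0 : 0 < θm := by rw [hθm]; positivity
  have hθm1 : θm ≤ θ₀ := by rw [hθm]; exact (min_le_left _ _).trans (min_le_left _ _)
  have hθm2 : θm ≤ θB / 2 := by rw [hθm]; exact (min_le_left _ _).trans (min_le_right _ _)
  have hθm3 : θm ≤ 1 / 16 := by rw [hθm]; exact min_le_right _ _
  refine ⟨θm / (26 * κ + 5), by positivity, fun δ hδ0 hδ1 => ?_⟩
  have hδ2 : (26 * κ + 5) * δ ≤ θm := by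
    rw [le_div_iff₀ (by positivity)] at hδ1
    linarith
  have hδ3 : δ ≤ 1 := by nlinarith
  obtain ⟨CS, hCS, hTS⟩ := hTSC δ hδ0 hδ3
  refine ⟨δ, CP * (9 ^ m' * (2 * C₂ * CT) * 2 + (CB * CS * CT) * 2 + (CB * CS + CB)) * 2, hδ0, by positivity, ?_⟩
  have hgrow := ev_grow (C := CT) (δ := δ) (θ := θ₀ / 2) hδ0 (by positivity)
  filter_upwards [hD, hBLS, hTS, hgrow, eventually_ge_atTop (16 : ℝ), Real.tendsto_log_atTop.eventually_ge_atTop 1,
    Real.tendsto_log_atTop.eventually_ge_atTop (1 / δ)] with T hD hBLS hTS hgrow hT hL1 hLδ N hN b hb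
  have hT0 : 0 < T := by linarith
  have hT1 : 1 ≤ T := by linarith
  have hL0 : 0 < Real.log T := by linarith
  have hDexp : Real.exp (δ * Real.log T) = T ^ δ := by
    rw [Real.rpow_def_of_pos hT0, mul_comm]
  obtain ⟨D, hDd⟩ : ∃ D : ℝ, D = δ * Real.log T := ⟨_, rfl⟩
  rw [← hDd] at hgrow hDexp ⊢
  have hD1 : 1 ≤ D := by
    rw [hDd]
    rw [div_le_iff₀ hδ0] at hLδ
    linarith
  rcases Nat.eq_zero_or_pos N with hN0 | hN1
  · -- trivial case
    subst hN0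
    have h1 : ∀ t, dp 0 b t = 0 := fun t => by simp [dp]
    simp only [h1, norm_zero]
    rw [Finset.sum_eq_zero fun s _ => by ring]
    unfold N2
    positivity
  have hNr : (1 : ℝ) ≤ N := by exact_mod_cast hN1
  have hlogN : Real.log N ≤ D := by
    have h1 := Real.log_le_log (by linarith) hN
    rw [Real.log_rpow hT0] at h1
    rw [hDd]
    exact h1
  -- the polynomial and `W`
  set e := ebk D κ (fun _ => (lam : ℂ)) (fun _ => (lam : ℂ)) 0 (JB D) with he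
  obtain ⟨W, hW⟩ : ∃ W : ℝ, W = 2 * N2 (M9 D κ * N) (cv e b) := ⟨_, rfl⟩
  have hW0 : 0 ≤ W := by rw [hW]; unfold N2; positivity
  have hκ1 : 1 ≤ κ := by linarith
  obtain ⟨he1, he2, -⟩ := hCOF κ D hκ1 hD1 (fun _ => (lam : ℂ)) (fun _ => (lam : ℂ)) (fun _ => 1) (fun _ => 1) 0 0
  rw [Nat.sub_zero, ← he] at he1 he2
  have hbN : ∀ n, N < n → b n = 0 := by
    intro n hn
    by_contra h
    have := (hb n h).2
    omega
  have heN : ∀ n, M9 D κ < n → e n = 0 := by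
    intro n hn
    by_contra h
    have := (he1 n h).2
    omega
  have hWMB : MB (fun t => ‖Ef D κ (lc (fun _ : Fin 1 => lam) (fun _ _ => (1 : ℂ))) (lc (fun _ : Fin 1 => lam) (fun _ _ => (1 : ℂ))) 0 t *
      dp N b t‖ ^ 2) W := by
    have h1 := MB_of hMVL (M9 D κ * N) (cv e b)
    rw [hW]
    convert h1 using 4 with t
    rw [lc_one, ← hDPM.1 (M9 D κ) N e b t heN hbN, he2]
  have hTORq := hTOR D hD1 (fun _ => lam) (fun _ _ => 1) (fun _ _ => 1) (fam_one hl0.le hl1.le) N b hN1 hlogN hb W hWMB 0 0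
  have hTORq' : ∀ q : ℕ, q ≤ JB D →
      MB (fun t => ‖cexp (∑ l ∈ Finset.range (JB D), zf D (fun _ => 1) (fun _ => 1) l t)‖ ^ 2 *
        ‖Ef D κ (fun _ => (lam : ℂ) - 1) (fun _ => (lam : ℂ) - 1) q t * pw D κ (fun _ => 1) (fun _ => 1) q t * dp N b t‖ ^ 2)
        (CT * Real.exp (-(2 * (q : ℝ))) * W) ∧
      MB (fun t => ‖Ef D κ (fun _ => (lam : ℂ)) (fun _ => (lam : ℂ)) q t * pw D κ (fun _ => 1) (fun _ => 1) q t * dp N b t‖ ^ 2)
        (CT * Real.exp (-(2 * (q : ℝ))) * W) ∧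
      MB (fun t => ‖Ef D κ (fun _ => (lam : ℂ) - 1) (fun _ => (lam : ℂ) - 1) q t * pw D κ (fun _ => 1) (fun _ => 1) q t * dp N b t‖ ^ 2)
        (Real.exp (CT * Real.sqrt D) * W) := by
    intro q hq
    have h1 := hTORq q hq
    rw [lc_one] at h1
    exact h1
  have hlen : ∀ M : ℕ, 1 ≤ M → Real.log M ≤ (26 * κ + 4) * D + Real.log N → (M : ℝ) ≤ T ^ θm := by
    intro M hM hMl
    have h1 : Real.log M ≤ θm * Real.log T := by
      have h2 : (26 * κ + 4) * D + Real.log N ≤ (26 * κ + 5) * δ * Real.log T := by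
        have h3 : (26 * κ + 4) * D + Real.log N ≤ (26 * κ + 4) * D + D := by linarith
        refine h3.trans (le_of_eq ?_)
        rw [hDd]; ring
      have h4 : (26 * κ + 5) * δ * Real.log T ≤ θm * Real.log T := mul_le_mul_of_nonneg_right hδ2 hL0.le
      linarith
    have hM1 : (0 : ℝ) < M := by exact_mod_cast hM
    rw [Real.rpow_def_of_pos hT0, ← Real.exp_log hM1]
    apply Real.exp_le_exp.2
    linarith
  have hmono : ∀ {x y : ℝ}, x ≤ y → T ^ x ≤ T ^ y := fun h => Real.rpow_le_rpow_of_exponent_le hT1 h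
  -- the first part
  have part1 : ∀ q : ℕ, q ≤ JB D → ∑ s ∈ H370.Zf riemannZeta T (2 * T), (mz s : ℝ) * (SS δ' T s.im ^ m' *
      ‖Ef D κ (fun _ => (lam : ℂ)) (fun _ => (lam : ℂ)) q s.im * pw D κ (fun _ => 1) (fun _ => 1) q s.im * dp N b s.im‖ ^ 2) ≤
        (2 * C₂ * CT) * Real.exp (-(2 * (q : ℝ))) * (Real.log T * T * W) := by
    intro q hq
    obtain ⟨-, -, h1⟩ := hCOF κ D hκ1 hD1 (fun _ => (lam : ℂ)) (fun _ => (lam : ℂ)) (fun _ => 1) (fun _ => 1) q q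
    obtain ⟨M, c, hM1, hMl, hcs, hdp⟩ := h1 N b hN1 hlogN hb
    have h2 := (hTORq' q hq).2.1
    simp only [← hdp] at h2 ⊢
    have h3 := N2_of_MB hMVL h2
    have h4 := hD M ((hlen M hM1 hMl).trans (hmono hθm2)) c
    refine h4.trans ?_
    calc C₂ * Real.log T * (T * N2 M c) ≤ C₂ * Real.log T * (T * (2 * (CT * Real.exp (-(2 * (q : ℝ))) * W))) := by gcongr
      _ = _ := by ring
  -- the second part
  have part2 : ∀ q : ℕ, q ≤ JB D → ∑ s ∈ (H370.Zf riemannZeta T (2 * T)).filter (fun s => s.re = 1 / 2), (n2 T s.im)⁻¹ *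
      (‖deriv riemannZeta s‖ ^ 2 * ‖Ef D κ (fun _ => (lam : ℂ) - 1) (fun _ => (lam : ℂ) - 1) q s.im *
        pw D κ (fun _ => 1) (fun _ => 1) q s.im * dp N b s.im‖ ^ 2) ≤
        Real.log T ^ 2 * (Real.log T * T * W) * ((CB * CS * CT) * Real.exp (-(2 * (q : ℝ))) +
          (CB * CS + CB) * (T ^ (-θ₀) * (2 * Real.exp (CT * Real.sqrt D)))) := by
    intro q hq
    obtain ⟨-, -, h1⟩ := hCOF κ D hκ1 hD1 (fun _ => (lam : ℂ) - 1) (fun _ => (lam : ℂ) - 1) (fun _ => 1) (fun _ => 1) q q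
    obtain ⟨M, c, hM1, hMl, hcs, hdp⟩ := h1 N b hN1 hlogN hb
    obtain ⟨h2, -, h3⟩ := hTORq' q hq
    simp only [← hdp] at h2 h3 ⊢
    have h4 := N2_of_MB hMVL h3
    have hMm := hlen M hM1 hMl
    have h5 := hTS M c (hMm.trans (hmono hθm1)) (fun n hn => by
      rw [← hDexp]
      exact hcs n hn) (CT * Real.exp (-(2 * (q : ℝ))) * W) (by rw [← hDd]; exact h2)
    have h6 := hBLS M c (hMm.trans (hmono hθm3)) (fun n hn => ⟨(hcs n hn).1, (hcs n hn).2.1⟩)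
    refine h6.trans ?_
    have hN20 : 0 ≤ N2 M c := by unfold N2; positivity
    have hTθ : 1 ≤ T * T ^ (-θ₀) := by
      have : T * T ^ (-θ₀) = T ^ (1 - θ₀) := by
        nth_rewrite 1 [← Real.rpow_one T]
        rw [← Real.rpow_add hT0]
        congr 1
      rw [this]
      exact Real.one_le_rpow hT1 (by linarith)
    have hX : N2 M c ≤ (T * T ^ (-θ₀)) * (2 * (Real.exp (CT * Real.sqrt D) * W)) := by
      calc N2 M c ≤ 2 * (Real.exp (CT * Real.sqrt D) * W) := h4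
        _ = 1 * (2 * (Real.exp (CT * Real.sqrt D) * W)) := (one_mul _).symm
        _ ≤ _ := mul_le_mul_of_nonneg_right hTθ (by positivity)
    have hTθ0 : 0 ≤ T ^ (-θ₀) := Real.rpow_nonneg hT0.le _
    have h7 : (∫ t in (T / 2)..(3 * T), ‖zt t‖ ^ 2 * ‖dp M c t‖ ^ 2) + N2 M c ≤
        CS * T * (CT * Real.exp (-(2 * (q : ℝ))) * W + T ^ (-θ₀) * (2 * (Real.exp (CT * Real.sqrt D) * W))) +
          (T * T ^ (-θ₀)) * (2 * (Real.exp (CT * Real.sqrt D) * W)) := by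
      refine add_le_add (h5.trans ?_) hX
      gcongr
    calc CB * Real.log T ^ 3 * ((∫ t in (T / 2)..(3 * T), ‖zt t‖ ^ 2 * ‖dp M c t‖ ^ 2) + N2 M c) ≤
          CB * Real.log T ^ 3 * (CS * T * (CT * Real.exp (-(2 * (q : ℝ))) * W + T ^ (-θ₀) * (2 * (Real.exp (CT * Real.sqrt D) * W))) +
          (T * T ^ (-θ₀)) * (2 * (Real.exp (CT * Real.sqrt D) * W))) := by gcongr
      _ = _ := by ring
  have hε : ((JB D : ℝ) + 1) * (T ^ (-θ₀) * (2 * Real.exp (CT * Real.sqrt D))) ≤ 1 := by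
    have h1 : T ^ (-θ₀) * T ^ (θ₀ / 2) ≤ 1 := by
      rw [← Real.rpow_add hT0]
      exact Real.rpow_le_one_of_one_le_of_nonpos hT1 (by linarith)
    calc ((JB D : ℝ) + 1) * (T ^ (-θ₀) * (2 * Real.exp (CT * Real.sqrt D))) =
        T ^ (-θ₀) * (2 * Real.exp (CT * Real.sqrt D) * ((JB D : ℝ) + 1)) := by ring
      _ ≤ T ^ (-θ₀) * T ^ (θ₀ / 2) := mul_le_mul_of_nonneg_left hgrow (Real.rpow_nonneg hT0.le _)
      _ ≤ 1 := h1
  have hfin := ubd_core (lam := lam) (κ := κ) (T := T) (δ' := δ') (W := W) (D := D) (N := N) (m' := m') (b := b)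
    hT hL1 hδ'0.le hCP hW0 (by positivity : 0 ≤ CB * CS + CB) (by positivity) (by positivity) hP part1 part2 hε
  refine hfin.trans (le_of_eq ?_)
  rw [hW, Real.rpow_add hL0, Real.rpow_one]
  ring

end

end Pool.Agent.Q148.UM
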