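import Pool.Agent.Q97.UM.Stm15

set_option autoImplicit false

/-! Project UM8 (helper97), job UBD: preparations. -/

namespace Pool.Agent.Q148.UM.D

open Filter Topology MeasureTheory Complex
open Pool.Agent.Q97.UM

noncomputable section

theorem dp_smul (M : ℕ) (x : ℂ) (c : ℕ → ℂ) (t : ℝ) : dp M (fun n => x * c n) t = x * dp M c t := by
  unfold dp
  rw [Finset.mul_sum]
  exact Finset.sum_congr rfl fun n _ => by ring

theorem qb_smul (D : ℝ) (x : ℂ) (j : ℕ) :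
    qb D (fun _ => x) (fun _ => x) j = fun n => x * qb D (fun _ => 1) (fun _ => 1) j n := by
  funext n
  unfold qb
  split_ifs <;> ring

theorem zf_smul (D : ℝ) (x : ℂ) (j : ℕ) (t : ℝ) :
    zf D (fun _ => x) (fun _ => x) j t = x * zf D (fun _ => 1) (fun _ => 1) j t := by
  unfold zf
  rw [qb_smul, dp_smul]

theorem pt2_one (h : S_PT2) {lam κ : ℝ} (hl0 : 0 < lam) (hl1 : lam < 1) (hκ : 4 ≤ κ) :
    ∃ C : ℝ, 1 ≤ C ∧ ∀ (D t Z : ℝ), 0 ≤ Z → Z ^ (2 * lam) ≤ C * ∑ q ∈ Finset.range (JB D + 1),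
      (‖Ef D κ (fun _ => (lam : ℂ)) (fun _ => (lam : ℂ)) q t * pw D κ (fun _ => 1) (fun _ => 1) q t‖ ^ 2 +
        Z ^ 2 * ‖Ef D κ (fun _ => (lam : ℂ) - 1) (fun _ => (lam : ℂ) - 1) q t * pw D κ (fun _ => 1) (fun _ => 1) q t‖ ^ 2) := by
  obtain ⟨C, hC, h⟩ := h 1 κ hκ
  refine ⟨C, hC, fun D t Z hZ => ?_⟩
  have h1 := h (JB D) (fun _ => lam) (fun _ l => zf D (fun _ => 1) (fun _ => 1) l t) (fun _ => Z)
    (fun _ => hl0.le) (by simpa using hl1.le) (fun _ => hZ)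
  simp only [Finset.univ_unique, Fin.default_eq_zero, Fin.isValue, Finset.prod_singleton, Finset.sum_singleton] at h1
  refine h1.trans (mul_le_mul_of_nonneg_left (le_of_eq ?_) (by linarith))
  have e1 : ∀ q : ℕ, Ef D κ (fun _ => (lam : ℂ)) (fun _ => (lam : ℂ)) q t =
      ∏ l ∈ Finset.Ico q (JB D), TEx (R9 κ l) ((lam : ℂ) * zf D (fun _ => 1) (fun _ => 1) l t) := by
    intro q
    unfold Ef
    exact Finset.prod_congr rfl fun l _ => by rw [zf_smul]
  have e2 : ∀ q : ℕ, Ef D κ (fun _ => (lam : ℂ) - 1) (fun _ => (lam : ℂ) - 1) q t =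
      ∏ l ∈ Finset.Ico q (JB D), TEx (R9 κ l) ((lam : ℂ) * zf D (fun _ => 1) (fun _ => 1) l t -
        zf D (fun _ => 1) (fun _ => 1) l t) := by
    intro q
    unfold Ef
    exact Finset.prod_congr rfl fun l _ => by rw [zf_smul]; congr 1; ring
  have e3 : ∀ j : ℕ, ‖pw D κ (fun _ => 1) (fun _ => 1) (j + 1) t‖ ^ 2 =
      (20 * ‖zf D (fun _ => 1) (fun _ => 1) j t‖ / R9 κ j) ^ (2 * s7 j) := by
    intro j
    unfold pw
    rw [norm_pow, norm_div, norm_mul, Complex.norm_natCast, ← pow_mul, mul_comm (s7 j) 2]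
    norm_num
  rw [Finset.sum_range_succ' (fun q => (‖Ef D κ (fun _ => (lam : ℂ)) (fun _ => (lam : ℂ)) q t * pw D κ (fun _ => 1) (fun _ => 1) q t‖ ^ 2 +
        Z ^ 2 * ‖Ef D κ (fun _ => (lam : ℂ) - 1) (fun _ => (lam : ℂ) - 1) q t * pw D κ (fun _ => 1) (fun _ => 1) q t‖ ^ 2))]
  have e4 : pw D κ (fun _ => 1) (fun _ => 1) 0 t = 1 := rfl
  rw [e4, e1 0, e2 0, mul_one, mul_one, ← Finset.range_eq_Ico, add_comm]
  congr 1
  refine Finset.sum_congr rfl fun j _ => ?_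
  rw [norm_mul, norm_mul, mul_pow, mul_pow, e3, e1, e2]
  ring

theorem pt2_two (h : S_PT2) {lam κ : ℝ} (hl0 : 0 < lam) (hl1 : lam < 1) (hκ : 4 ≤ κ) {m' : ℕ} (hm : lam / (1 - lam) ≤ m') :
    ∃ C : ℝ, 1 ≤ C ∧ ∀ (D t X n : ℝ), 0 ≤ X → 1 ≤ n → X ^ (2 * lam) ≤ C * ∑ q ∈ Finset.range (JB D + 1),
      (n ^ m' * ‖Ef D κ (fun _ => (lam : ℂ)) (fun _ => (lam : ℂ)) q t * pw D κ (fun _ => 1) (fun _ => 1) q t‖ ^ 2 +
        n⁻¹ * X ^ 2 * ‖Ef D κ (fun _ => (lam : ℂ) - 1) (fun _ => (lam : ℂ) - 1) q t * pw D κ (fun _ => 1) (fun _ => 1) q t‖ ^ 2) := by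
  obtain ⟨C, hC, h⟩ := pt2_one h hl0 hl1 hκ
  refine ⟨C, hC, fun D t X n hX hn => ?_⟩
  have hl : 0 < 1 - lam := by linarith
  have hn0 : 0 < n := by linarith
  set P : ℝ := n ^ (lam / (1 - lam)) with hP
  have hP0 : 0 < P := Real.rpow_pos_of_pos hn0 _
  have hPm : P ≤ n ^ m' := by
    rw [hP, ← Real.rpow_natCast]
    exact Real.rpow_le_rpow_of_exponent_le hn hm
  set Z : ℝ := n ^ (-(1 / (2 * (1 - lam)))) * X with hZ
  have hZ0 : 0 ≤ Z := mul_nonneg (Real.rpow_nonneg hn0.le _) hX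
  have hZ2 : P * Z ^ (2 * lam) = X ^ (2 * lam) := by
    rw [hZ, Real.mul_rpow (Real.rpow_nonneg hn0.le _) hX, ← Real.rpow_mul hn0.le, hP, ← mul_assoc, ← Real.rpow_add hn0]
    have : lam / (1 - lam) + -(1 / (2 * (1 - lam))) * (2 * lam) = 0 := by field_simp; ring
    rw [this, Real.rpow_zero, one_mul]
  have hZ3 : P * Z ^ 2 = n⁻¹ * X ^ 2 := by
    rw [hZ, mul_pow, ← Real.rpow_natCast (n ^ (-(1 / (2 * (1 - lam))))) 2, ← Real.rpow_mul hn0.le, hP, ← mul_assoc,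
      ← Real.rpow_add hn0]
    have : lam / (1 - lam) + -(1 / (2 * (1 - lam))) * ((2 : ℕ) : ℝ) = -1 := by push_cast; field_simp; ring
    rw [this, Real.rpow_neg_one]
  have h1 := mul_le_mul_of_nonneg_left (h D t Z hZ0) hP0.le
  rw [hZ2] at h1
  refine h1.trans ?_
  rw [← mul_assoc, mul_comm P C, mul_assoc]
  refine mul_le_mul_of_nonneg_left ?_ (by linarith)
  rw [Finset.mul_sum]
  refine Finset.sum_le_sum fun q _ => ?_
  rw [mul_add, ← mul_assoc P (Z ^ 2), hZ3]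
  have h2 : P * ‖Ef D κ (fun _ => (lam : ℂ)) (fun _ => (lam : ℂ)) q t * pw D κ (fun _ => 1) (fun _ => 1) q t‖ ^ 2 ≤
      n ^ m' * ‖Ef D κ (fun _ => (lam : ℂ)) (fun _ => (lam : ℂ)) q t * pw D κ (fun _ => 1) (fun _ => 1) q t‖ ^ 2 :=
    mul_le_mul_of_nonneg_right hPm (by positivity)
  linarith

theorem ev_len (M : ℕ) : ∀ᶠ V : ℝ in atTop, (M : ℝ) ≤ V ^ (1 / 4 : ℝ) :=
  (tendsto_rpow_atTop (by norm_num : (0 : ℝ) < 1 / 4)).eventually_ge_atTop (M : ℝ)

theorem N2_of_MB (h : S_MVL) {M : ℕ} {c : ℕ → ℂ} {W : ℝ} (hW : MB (fun t => ‖dp M c t‖ ^ 2) W) : N2 M c ≤ 2 * W := by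
  obtain ⟨V, hV1, hV2, hV3⟩ := (hW.and ((ev_len M).and (eventually_ge_atTop (16 : ℝ)))).exists
  have h1 := (h V hV3 M hV2 c).1
  have h2 : V / 2 * N2 M c ≤ V / 2 * (2 * W) := by linarith
  exact le_of_mul_le_mul_left h2 (by linarith)

theorem MB_of (h : S_MVL) (M : ℕ) (c : ℕ → ℂ) : MB (fun t => ‖dp M c t‖ ^ 2) (2 * N2 M c) := by
  unfold MB
  filter_upwards [ev_len M, eventually_ge_atTop (16 : ℝ)] with V hV1 hV2
  have := (h V hV2 M hV1 c).2
  linarith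

theorem n2_ge {T : ℝ} (hT : 16 ≤ T) {s : ℂ} (hs : s ∈ H370.Zf riemannZeta T (2 * T)) : 1 ≤ n2 T s.im := by
  classical
  have hF := H370.good_zeta
  have hL : 0 < Real.log T := Real.log_pos (by linarith)
  rw [H370.mem_Zf hF (by linarith)] at hs
  obtain ⟨a1, a2, a3, a4, a5⟩ := hs
  have h1 : s ∈ (ZD T).filter (fun s' => |s'.im - s.im| ≤ 2 / Real.log T) := by
    rw [Finset.mem_filter]
    constructor
    · unfold ZD
      rw [H370.mem_Zf hF (by linarith)]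
      exact ⟨a1, a2, by linarith, by linarith, a5⟩
    · rw [sub_self, abs_zero]; positivity
  have h2 : (1 : ℝ) ≤ mz s := by
    have := H370.Loc.mult_pos' hF (show 0 < s.im by linarith) a5
    exact_mod_cast this
  unfold n2
  refine h2.trans ?_
  have h3 := Finset.single_le_sum (f := fun s' : ℂ => (mz s' : ℝ)) (fun i _ => Nat.cast_nonneg _) h1
  convert h3

theorem n2_le {T δ t : ℝ} (hT : 1 < T) (hδ : 0 ≤ δ) : n2 T t ≤ 9 * SS δ T t := by
  classical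
  have hL : 0 < Real.log T := Real.log_pos hT
  unfold n2 SS
  rw [Finset.mul_sum]
  have h1 : ∀ s ∈ ZD T, 0 ≤ 9 * ((mz s : ℝ) * (Real.exp (2 * δ * (Real.log T * |s.re - 1 / 2|)) /
      (1 + Real.log T * |s.im - t|) ^ 2)) := fun s _ => by positivity
  refine le_trans ?_ (Finset.sum_le_sum_of_subset_of_nonneg (Finset.filter_subset (fun s => |s.im - t| ≤ 2 / Real.log T) (ZD T))
    fun s hs _ => h1 s hs)
  refine le_trans (le_of_eq ?_) (Finset.sum_le_sum (f := fun s : ℂ => (mz s : ℝ)) fun s hs => ?_)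
  · congr
  · rw [Finset.mem_filter] at hs
    have h2 : Real.log T * |s.im - t| ≤ 2 := by
      have := mul_le_mul_of_nonneg_left hs.2 hL.le
      rwa [mul_div_cancel₀ _ hL.ne'] at this
    have h3 : (1 + Real.log T * |s.im - t|) ^ 2 ≤ 9 := by
      have h4 : 0 ≤ Real.log T * |s.im - t| := by positivity
      nlinarith
    have h5 : 1 ≤ Real.exp (2 * δ * (Real.log T * |s.re - 1 / 2|)) := Real.one_le_exp (by positivity)
    have h6 : 1 ≤ 9 * (Real.exp (2 * δ * (Real.log T * |s.re - 1 / 2|)) / (1 + Real.log T * |s.im - t|) ^ 2) := by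
      rw [← mul_div_assoc, le_div_iff₀ (by positivity)]
      linarith
    have h7 : (0 : ℝ) ≤ mz s := Nat.cast_nonneg _
    calc (mz s : ℝ) = mz s * 1 := (mul_one _).symm
      _ ≤ mz s * (9 * (Real.exp (2 * δ * (Real.log T * |s.re - 1 / 2|)) / (1 + Real.log T * |s.im - t|) ^ 2)) :=
        mul_le_mul_of_nonneg_left h6 h7
      _ = _ := by ring

/-- growth condition -/
theorem ev_grow {C δ θ : ℝ} (hδ : 0 < δ) (hθ : 0 < θ) : ∀ᶠ T : ℝ in atTop,
    2 * Real.exp (C * Real.sqrt (δ * Real.log T)) * ((JB (δ * Real.log T) : ℝ) + 1) ≤ T ^ θ := by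
  have hDt : Tendsto (fun T : ℝ => δ * Real.log T) atTop atTop := Real.tendsto_log_atTop.const_mul_atTop hδ
  have key : ∀ᶠ D : ℝ in atTop, 2 * Real.exp (C * Real.sqrt D) * ((JB D : ℝ) + 1) ≤ Real.exp (θ / δ * D) := by
    have h1 := (isLittleO_pow_exp_pos_mul_atTop 1 (show 0 < θ / δ / 2 by positivity)).bound (show (0 : ℝ) < 1 / 6 by norm_num)
    filter_upwards [h1, eventually_ge_atTop (1 : ℝ), eventually_ge_atTop ((2 * C / (θ / δ)) ^ 2)] with D h1 hD1 hD2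
    rw [Real.norm_eq_abs, Real.norm_eq_abs, pow_one, abs_of_nonneg (by linarith), abs_of_pos (Real.exp_pos _)] at h1
    have hJ : (JB D : ℝ) + 1 ≤ 3 * D := by
      unfold JB
      have h2 : 0 ≤ Real.log (2 * D) := Real.log_nonneg (by linarith)
      have h3 := Nat.ceil_lt_add_one h2
      have h4 := Real.log_le_sub_one_of_pos (show (0 : ℝ) < 2 * D by linarith)
      linarith
    have hs : C * Real.sqrt D ≤ θ / δ / 2 * D := by
      have h5 : 2 * C / (θ / δ) ≤ Real.sqrt D := Real.le_sqrt_of_sq_le hD2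
      have h6 : 0 < θ / δ := by positivity
      rw [div_le_iff₀ h6] at h5
      have h7 : Real.sqrt D * Real.sqrt D = D := Real.mul_self_sqrt (by linarith)
      have h8 : 0 ≤ Real.sqrt D := Real.sqrt_nonneg D
      calc C * Real.sqrt D ≤ (Real.sqrt D * (θ / δ) / 2) * Real.sqrt D := by
            apply mul_le_mul_of_nonneg_right _ h8
            linarith
        _ = θ / δ / 2 * (Real.sqrt D * Real.sqrt D) := by ring
        _ = θ / δ / 2 * D := by rw [h7]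
    calc 2 * Real.exp (C * Real.sqrt D) * ((JB D : ℝ) + 1) ≤ 2 * Real.exp (θ / δ / 2 * D) * (3 * D) := by
          gcongr
      _ = Real.exp (θ / δ / 2 * D) * (6 * D) := by ring
      _ ≤ Real.exp (θ / δ / 2 * D) * Real.exp (θ / δ / 2 * D) := by
          gcongr
          linarith
      _ = Real.exp (θ / δ * D) := by rw [← Real.exp_add]; congr 1; ring
  filter_upwards [hDt.eventually key, eventually_gt_atTop (0 : ℝ)] with T h1 hT
  refine h1.trans (le_of_eq ?_)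
  rw [Real.rpow_def_of_pos hT]
  congr 1
  field_simp

theorem geo_sum (n : ℕ) : ∑ q ∈ Finset.range n, Real.exp (-(2 * (q : ℝ))) ≤ 2 := by
  have h1 : ∀ q : ℕ, Real.exp (-(2 * (q : ℝ))) ≤ (1 / 2 : ℝ) ^ q := by
    intro q
    have h2 : Real.exp (-(2 * (q : ℝ))) = Real.exp (-2) ^ q := by
      rw [← Real.exp_nat_mul]; congr 1; ring
    rw [h2]
    apply pow_le_pow_left₀ (Real.exp_pos _).le
    have h3 : Real.exp (-2) ≤ Real.exp (-1) := Real.exp_le_exp.2 (by norm_num)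
    have h4 := Real.exp_neg_one_lt_d9
    linarith
  calc ∑ q ∈ Finset.range n, Real.exp (-(2 * (q : ℝ))) ≤ ∑ q ∈ Finset.range n, (1 / 2 : ℝ) ^ q :=
        Finset.sum_le_sum fun q _ => h1 q
    _ = ((1 / 2 : ℝ) ^ n - 1) / (1 / 2 - 1) := geom_sum_eq (by norm_num) n
    _ ≤ 2 := by
        have : 0 ≤ (1 / 2 : ℝ) ^ n := by positivity
        rw [div_le_iff_of_neg (by norm_num)]
        linarith

end

end Pool.Agent.Q148.UM.D
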